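import Pool.Agent.Work.MP_64ea0f_cs.InterfaceB

set_option autoImplicit false

namespace Pool.CS

namespace LSX

variable {D : Rd} {H : Subgroup D.W}

theorem ρ_inv (w : D.W) (v : D.V) : D.ρ w⁻¹ (D.ρ w v) = v := by
  have : D.ρ w⁻¹ * D.ρ w = 1 := by rw [← map_mul, inv_mul_cancel, map_one]
  exact congrArg (fun f : Module.End ℝ D.V => f v) this

theorem ρ_mul (w w' : D.W) (v : D.V) : D.ρ (w * w') v = D.ρ w (D.ρ w' v) := by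
  rw [map_mul]
  rfl

theorem ρ_inv' (w : D.W) (v : D.V) : D.ρ w (D.ρ w⁻¹ v) = v := by
  rw [← ρ_mul, mul_inv_cancel, map_one]
  rfl

theorem lab_self (φ : D.V) : φ ∈ D.lab H φ := by
  refine ⟨1, H.one_mem, Or.inl ?_⟩
  rw [map_one]
  rfl

theorem lab_neg {φ ψ : D.V} (h : ψ ∈ D.lab H φ) : -ψ ∈ D.lab H φ := by
  obtain ⟨g, hg, h | h⟩ := h
  · exact ⟨g, hg, Or.inr (by rw [h])⟩
  · exact ⟨g, hg, Or.inl (by rw [h, neg_neg])⟩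

theorem lab_act {φ ψ : D.V} (h : ψ ∈ D.lab H φ) {g : D.W} (hg : g ∈ H) :
    D.ρ g ψ ∈ D.lab H φ := by
  obtain ⟨g', hg', h | h⟩ := h
  · exact ⟨g * g', H.mul_mem hg hg', Or.inl (by rw [h, ρ_mul])⟩
  · exact ⟨g * g', H.mul_mem hg hg', Or.inr (by rw [h, map_neg, ρ_mul])⟩

theorem lab_symm {φ ψ : D.V} (h : ψ ∈ D.lab H φ) : φ ∈ D.lab H ψ := by
  obtain ⟨g, hg, h | h⟩ := h
  · exact ⟨g⁻¹, H.inv_mem hg, Or.inl (by rw [h, ρ_inv])⟩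
  · exact ⟨g⁻¹, H.inv_mem hg, Or.inr (by rw [h, map_neg, ρ_inv, neg_neg])⟩

theorem lab_trans {φ ψ χ : D.V} (h : ψ ∈ D.lab H φ) (h' : χ ∈ D.lab H ψ) : χ ∈ D.lab H φ := by
  obtain ⟨g, hg, h1 | h1⟩ := h'
  · rw [h1]
    exact lab_act h hg
  · rw [h1]
    exact lab_neg (lab_act h hg)

theorem lab_eq {φ ψ : D.V} (h : ψ ∈ D.lab H φ) : D.lab H ψ = D.lab H φ :=
  Set.Subset.antisymm (fun _ hχ => lab_trans h hχ) (fun _ hχ => lab_trans (lab_symm h) hχ)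

theorem Lb_eq (a : D.Lb H) {φ : D.V} (h : φ ∈ a.1) : a.1 = D.lab H φ := by
  obtain ⟨φ0, _, h0⟩ := a.2
  rw [h0] at h ⊢
  exact (lab_eq h).symm

theorem Lb_neg (a : D.Lb H) {φ : D.V} (h : φ ∈ a.1) : -φ ∈ a.1 := by
  have := Lb_eq a h
  rw [this]
  exact lab_neg (lab_self φ)

theorem Lb_act (a : D.Lb H) {φ : D.V} (h : φ ∈ a.1) {g : D.W} (hg : g ∈ H) : D.ρ g φ ∈ a.1 := by
  have := Lb_eq a h
  rw [this]
  exact lab_act (lab_self φ) hg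

theorem Lb_ne {a b : D.Lb H} (hab : a ≠ b) {φ ψ : D.V} (h : φ ∈ a.1) (h' : ψ ∈ b.1) : φ ≠ ψ := by
  rintro rfl
  exact hab (Subtype.ext ((Lb_eq a h).trans (Lb_eq b h').symm))

theorem uniq (hD : D.Deep H) {x : Set D.V} (hx : D.Vx x) (a : D.Lb H) {φ ψ : D.V}
    (h1 : D.Mn x φ) (h2 : φ ∈ a.1) (h3 : D.Mn x ψ) (h4 : ψ ∈ a.1) : ψ = φ := by
  refine hD.self x hx φ ψ h1 h3 ?_
  rw [← Lb_eq a h2]
  exact h4

theorem B_neg_left (hB : Stmt_BAS) (v w : D.V) : D.B (-v) w = -D.B v w := by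
  have h9 := (hB D).2.1 (-1) 0 v v w
  simp only [neg_smul, one_smul, zero_smul, add_zero, zero_mul, neg_mul, one_mul] at h9
  exact h9

theorem B_neg_right (hB : Stmt_BAS) (v w : D.V) : D.B v (-w) = -D.B v w := by
  rw [(hB D).1 v (-w), B_neg_left hB, (hB D).1 w v]

theorem cross (hB : Stmt_BAS) (hD : D.Deep H) {x : Set D.V} (hx : D.Vx x) {a b : D.Lb H}
    (hab : (D.lg H).Adj a b) {φ ψ : D.V} (h1 : D.Mn x φ) (h2 : φ ∈ a.1) (h3 : D.Mn x ψ)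
    (h4 : ψ ∈ b.1) : |D.B φ ψ| < 1 := by
  obtain ⟨hne, φ0, hφ0, ψ0, hψ0, hlt⟩ := hab
  refine hD.osc x hx φ ψ h1 h3 (Lb_ne hne h2 h4) ?_
  rw [Lb_eq a h2] at hφ0
  rw [Lb_eq b h4] at hψ0
  obtain ⟨g, hg, hg1⟩ := hφ0
  obtain ⟨g', hg', hg1'⟩ := hψ0
  refine ⟨g⁻¹ * g', H.mul_mem (H.inv_mem hg) hg', ?_⟩
  have key : D.B φ (D.ρ (g⁻¹ * g') ψ) = D.B (D.ρ g φ) (D.ρ g' ψ) := by
    rw [← (hB D).2.2.2.2.1 g φ (D.ρ (g⁻¹ * g') ψ), ρ_mul, ρ_inv']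
  rw [key]
  have e1 : |D.B φ0 ψ0| = |D.B (D.ρ g φ) (D.ρ g' ψ)| := by
    rcases hg1 with h | h <;> rcases hg1' with h' | h' <;> rw [h, h']
    · rw [B_neg_right hB, abs_neg]
    · rw [B_neg_left hB, abs_neg]
    · rw [B_neg_left hB, B_neg_right hB, neg_neg]
  rw [← e1]
  exact hlt

open Classical in
/-- the flip -/
noncomputable def tau (h2 : Stmt_VX2) (a : D.Lb H) (x : D.X) : D.X :=
  if h : ∃ φ, D.Mn x.1 φ ∧ φ ∈ a.1 then ⟨D.fl x.1 h.choose, (h2 D x.1 x.2 _ h.choose_spec.1).1⟩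
  else x

theorem tau_move (h2 : Stmt_VX2) (hD : D.Deep H) (a : D.Lb H) (x : D.X) {φ : D.V}
    (h : D.Mn x.1 φ) (h' : φ ∈ a.1) : (tau h2 a x).1 = D.fl x.1 φ := by
  have hex : ∃ φ, D.Mn x.1 φ ∧ φ ∈ a.1 := ⟨φ, h, h'⟩
  have e1 : tau h2 a x = ⟨D.fl x.1 hex.choose, (h2 D x.1 x.2 _ hex.choose_spec.1).1⟩ :=
    dif_pos hex
  have e2 : (tau h2 a x).1 = D.fl x.1 hex.choose := congrArg Subtype.val e1
  rw [e2, uniq hD x.2 a h h' hex.choose_spec.1 hex.choose_spec.2]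

theorem tau_fix (h2 : Stmt_VX2) (a : D.Lb H) (x : D.X)
    (h : ∀ φ, D.Mn x.1 φ → φ ∉ a.1) : tau h2 a x = x := by
  have hex : ¬ ∃ φ, D.Mn x.1 φ ∧ φ ∈ a.1 := by
    rintro ⟨φ, h1, h3⟩
    exact h φ h1 h3
  exact dif_neg hex

theorem com_aux (hB : Stmt_BAS) (h2 : Stmt_VX2) (h3 : Stmt_VX3) (hD : D.Deep H) {a b : D.Lb H}
    (hab : (D.lg H).Adj a b) (x : D.X) {φ : D.V} (h : D.Mn x.1 φ) (h' : φ ∈ a.1)
    (hb : ∀ ψ, D.Mn x.1 ψ → ψ ∉ b.1) : tau h2 a (tau h2 b x) = tau h2 b (tau h2 a x) := by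
  rw [tau_fix h2 b x hb]
  symm
  apply tau_fix
  intro ψ hψ hψb
  rw [tau_move h2 hD a x h h'] at hψ
  obtain ⟨v1, v2, v3, v4, v5⟩ := h2 D x.1 x.2 φ h
  have hc := cross hB hD v1 hab v2 (Lb_neg a h') hψ hψb
  rw [B_neg_left hB, abs_neg] at hc
  have hne : ψ ≠ -φ := (Lb_ne hab.1 (Lb_neg a h') hψb).symm
  exact hb ψ ((h3 D x.1 x.2 φ ψ).2.2.1 h hψ hne hc) hψb

end LSX

open LSX in
theorem lsx_thm : Stmt_BAS → Stmt_VX1 → Stmt_VX2 → Stmt_VX3 → Stmt_LSX := by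
  intro hB h1 h2 h3 D H hD
  refine ⟨⟨⟨tau h2, ?_, ?_⟩, ?_⟩, ?_⟩
  · intro a x
    by_cases h : ∃ φ, D.Mn x.1 φ ∧ φ ∈ a.1
    · obtain ⟨φ, hφ, hφa⟩ := h
      have e1 := tau_move h2 hD a x hφ hφa
      obtain ⟨v1, v2, v3, v4, v5⟩ := h2 D x.1 x.2 φ hφ
      have m2 : D.Mn (tau h2 a x).1 (-φ) := by rw [e1]; exact v2
      apply Subtype.ext
      rw [tau_move h2 hD a (tau h2 a x) m2 (Lb_neg a hφa), e1, v3]
    · push Not at h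
      rw [tau_fix h2 a x h, tau_fix h2 a x h]
  · intro a b hab x
    by_cases ha : ∃ φ, D.Mn x.1 φ ∧ φ ∈ a.1
    · obtain ⟨φ, hφ, hφa⟩ := ha
      by_cases hb : ∃ ψ, D.Mn x.1 ψ ∧ ψ ∈ b.1
      · obtain ⟨ψ, hψ, hψb⟩ := hb
        have hc := cross hB hD x.2 hab hφ hφa hψ hψb
        have hc' : |D.B ψ φ| < 1 := by rw [(hB D).1]; exact hc
        have e1 := tau_move h2 hD a x hφ hφa
        have e2 := tau_move h2 hD b x hψ hψb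
        have k1 := (h3 D x.1 x.2 φ ψ).2.1 hφ hψ hc
        have k2 := (h3 D x.1 x.2 ψ φ).2.1 hψ hφ hc'
        apply Subtype.ext
        have m1 : D.Mn (tau h2 b x).1 φ := by rw [e2]; exact k2.1
        have m2 : D.Mn (tau h2 a x).1 ψ := by rw [e1]; exact k1.1
        rw [tau_move h2 hD a _ m1 hφa, tau_move h2 hD b _ m2 hψb, e1, e2, k1.2]
      · push Not at hb
        exact com_aux hB h2 h3 hD hab x hφ hφa hb
    · push Not at ha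
      by_cases hb : ∃ ψ, D.Mn x.1 ψ ∧ ψ ∈ b.1
      · obtain ⟨ψ, hψ, hψb⟩ := hb
        exact (com_aux hB h2 h3 hD hab.symm x hψ hψb ha).symm
      · push Not at hb
        rw [tau_fix h2 b x hb, tau_fix h2 a x ha, tau_fix h2 b x hb]
  · intro a x
    exact ⟨fun φ hφ hφa => tau_move h2 hD a x hφ hφa, fun h => tau_fix h2 a x h⟩
  · intro L hL h hh a x y hy
    obtain ⟨_, _, _, _, _, _, hMn, _⟩ := h1 D
    by_cases ha : ∃ φ, D.Mn x.1 φ ∧ φ ∈ a.1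
    · obtain ⟨φ, hφ, hφa⟩ := ha
      have m2 : D.Mn y.1 (D.ρ h φ) := by
        rw [hy]
        exact (hMn x.1 x.2 h φ).1 hφ
      rw [(hL a x).1 φ hφ hφa, (hL a y).1 _ m2 (Lb_act a hφa hh), hy]
      exact ((h2 D x.1 x.2 φ hφ).2.2.2.2 h).symm
    · push Not at ha
      rw [(hL a x).2 ha, (hL a y).2 ?_, hy]
      intro ψ hψ hψa
      have m2 : D.Mn (D.act h x.1) (D.ρ h (D.ρ h⁻¹ ψ)) := by
        rw [ρ_inv', ← hy]
        exact hψ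
      exact ha _ ((hMn x.1 x.2 h _).2 m2) (Lb_act a hψa (H.inv_mem hh))

end Pool.CS
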