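import Pool.Agent.Work.MP_64ea0f_cs.InterfaceC

set_option autoImplicit false

namespace Pool.CS

namespace CNT

variable {Λ : Type} {G : SimpleGraph Λ}

theorem s_per (H : Per G) (i n : ℤ) : H.s (i + H.k * n) = H.s i := by
  induction n using Int.induction_on with
  | zero => simp
  | succ n ih =>
    rw [show i + (H.k : ℤ) * ((n : ℤ) + 1) = (i + H.k * n) + H.k by ring, H.per, ih]
  | pred n ih =>
    rw [← ih, ← H.per (i + (H.k : ℤ) * (-(n : ℤ) - 1))]
    congr 1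
    ring

theorem cls {k : ℕ} (a b : Fin k) (n n' : ℤ)
    (h : ((a : ℕ) : ℤ) + 1 + k * n = ((b : ℕ) : ℤ) + 1 + k * n') : a = b ∧ n = n' := by
  have hk : 0 < k := lt_of_le_of_lt (Nat.zero_le _) a.2
  have e1 : (((a : ℕ) : ℤ) + k * n) % k = (((b : ℕ) : ℤ) + k * n') % k := by
    congr 1
    linarith
  have ha : ((a : ℕ) : ℤ) < k := by exact_mod_cast a.2
  have hb : ((b : ℕ) : ℤ) < k := by exact_mod_cast b.2
  rw [Int.add_mul_emod_self_left, Int.add_mul_emod_self_left,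
    Int.emod_eq_of_lt (by positivity) ha, Int.emod_eq_of_lt (by positivity) hb] at e1
  have e2 : a = b := Fin.ext (by exact_mod_cast e1)
  refine ⟨e2, ?_⟩
  subst e2
  have hk' : (k : ℤ) ≠ 0 := by exact_mod_cast hk.ne'
  have : (k : ℤ) * n = k * n' := by linarith
  exact mul_left_cancel₀ hk' this

/-- every place is in a class -/
theorem rep {k : ℕ} (hk : 0 < k) (i : ℤ) : ∃ (a : Fin k) (n : ℤ),
    i = ((a : ℕ) : ℤ) + 1 + k * n := by
  have hk' : (0 : ℤ) < k := by exact_mod_cast hk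
  have h0 := Int.emod_nonneg (i - 1) hk'.ne'
  have h1 := Int.emod_lt_of_pos (i - 1) hk'
  refine ⟨⟨((i - 1) % k).toNat, by omega⟩, (i - 1) / k, ?_⟩
  have h2 := Int.emod_add_mul_ediv (i - 1) k
  simp only
  rw [Int.toNat_of_nonneg h0]
  linarith

theorem key (hT : Stmt_C_THR) (H : Per G) (P : Set ℤ) (f : Λ → ℤ) (hP : H.Cut P) (hf : H.LC f)
    (h3 : ∀ t, (3 : ℤ) ∣ f t) (j : Fin H.k) :
    ∃ n : ℤ, ((((j : ℕ) : ℤ) + 1 + H.k * n) ∈ symmDiff P (H.sh f (H.tr P))) ∧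
      (f (H.s (((j : ℕ) : ℤ) + 1)) ≠ 0 → ∃ n' : ℤ, n' ≠ n ∧
        (((j : ℕ) : ℤ) + 1 + H.k * n') ∈ symmDiff P (H.sh f (H.tr P))) := by
  set i : ℤ := ((j : ℕ) : ℤ) + 1 with hi
  have hj : ((j : ℕ) : ℤ) < H.k := by exact_mod_cast j.2
  by_cases hiso : H.iso (H.s i)
  · have hf0 : f (H.s i) = 0 := hf.2.1 _ hiso
    have hact : H.act i := Or.inr ⟨by omega, by omega⟩
    refine ⟨0, ?_, fun h => absurd hf0 h⟩
    rw [mul_zero, add_zero]
    have hQ : i ∈ H.sh f (H.tr P) ↔ i ∉ P := by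
      change i - H.k * f (H.s i) ∈ H.tr P ↔ _
      rw [hf0, mul_zero, sub_zero]
      change ((¬ H.iso (H.s i) ∧ i - H.k ∈ P) ∨ (H.iso (H.s i) ∧ H.act i ∧ i ∉ P) ∨
        (H.iso (H.s i) ∧ ¬ H.act i ∧ i ∈ P)) ↔ i ∉ P
      tauto
    rw [Set.mem_symmDiff, hQ]
    tauto
  · obtain ⟨a, ha⟩ := hT Λ G H P hP i hiso
    have hs : ∀ n : ℤ, H.s (i + H.k * n) = H.s i := s_per H i
    have hQ : ∀ n : ℤ, i + H.k * n ∈ H.sh f (H.tr P) ↔ n ≤ a + 1 + f (H.s i) := by
      intro n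
      change i + H.k * n - H.k * f (H.s (i + H.k * n)) ∈ H.tr P ↔ _
      rw [hs, show i + (H.k : ℤ) * n - H.k * f (H.s i) = i + H.k * (n - f (H.s i)) by ring]
      set m := n - f (H.s i) with hm
      change ((¬ H.iso (H.s (i + H.k * m)) ∧ i + H.k * m - H.k ∈ P) ∨
        (H.iso (H.s (i + H.k * m)) ∧ H.act (i + H.k * m) ∧ i + H.k * m ∉ P) ∨
        (H.iso (H.s (i + H.k * m)) ∧ ¬ H.act (i + H.k * m) ∧ i + H.k * m ∈ P)) ↔ _
      rw [hs, show i + (H.k : ℤ) * m - H.k = i + H.k * (m - 1) by ring, ha]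
      constructor
      · rintro (⟨_, h⟩ | ⟨h, _⟩ | ⟨h, _⟩)
        · omega
        · exact absurd h hiso
        · exact absurd h hiso
      · intro h
        exact Or.inl ⟨hiso, by omega⟩
    obtain ⟨c, hc⟩ := h3 (H.s i)
    have hmem : ∀ n : ℤ, (i + H.k * n ∈ symmDiff P (H.sh f (H.tr P))) ↔
        ((n ≤ a ∧ ¬ n ≤ a + 1 + f (H.s i)) ∨ (n ≤ a + 1 + f (H.s i) ∧ ¬ n ≤ a)) := by
      intro n
      rw [Set.mem_symmDiff, ha, hQ]
    rcases lt_or_ge c 0 with hneg | hpos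
    · refine ⟨a, (hmem a).2 (by omega), fun _ => ⟨a - 1, by omega, (hmem _).2 (by omega)⟩⟩
    · refine ⟨a + 1, (hmem _).2 (by omega), fun h => ⟨a + 2, by omega, (hmem _).2 ?_⟩⟩
      omega

end CNT

open CNT in
theorem c_cnt_thm : Stmt_C_THR → Stmt_C_SYM → Stmt_C_CNT := by
  intro hT hS Λ G H P f hP hf h3
  have hQc : H.Cut (H.sh f (H.tr P)) :=
    (((hS Λ G H).1 f hf).1 _).1 (((hS Λ G H).2.1 _).1 hP)
  have hfin : (symmDiff P (H.sh f (H.tr P))).Finite := by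
    refine (hP.2.2.union hQc.2.2).subset ?_
    intro i hi
    rw [Set.mem_symmDiff] at hi
    rw [Set.mem_union, Set.mem_symmDiff, Set.mem_symmDiff]
    tauto
  choose e he he' using key hT H P f hP hf h3
  have hinj : Function.Injective (fun j : Fin H.k => ((j : ℕ) : ℤ) + 1 + H.k * e j) :=
    fun j j' h => (cls j j' _ _ h).1
  have hr : Set.range (fun j : Fin H.k => ((j : ℕ) : ℤ) + 1 + H.k * e j) ⊆
      symmDiff P (H.sh f (H.tr P)) := by
    rintro _ ⟨j, rfl⟩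
    exact he j
  have hcard : (Set.range (fun j : Fin H.k => ((j : ℕ) : ℤ) + 1 + H.k * e j)).ncard = H.k := by
    rw [← Set.image_univ, Set.ncard_image_of_injective _ hinj, Set.ncard_univ]
    simp
  refine ⟨?_, fun hle => ?_⟩
  · rw [← hcard]
    exact Set.ncard_le_ncard hr hfin
  · have hz : ∀ j : Fin H.k, f (H.s (((j : ℕ) : ℤ) + 1)) = 0 := by
      intro j
      by_contra hne
      obtain ⟨n', hn', hm'⟩ := he' j hne
      have hnot : (((j : ℕ) : ℤ) + 1 + H.k * n') ∉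
          Set.range (fun j : Fin H.k => ((j : ℕ) : ℤ) + 1 + H.k * e j) := by
        rintro ⟨j', h⟩
        have := cls j' j _ _ h
        obtain ⟨h1, h2⟩ := this
        subst h1
        exact hn' h2.symm
      have h1 := Set.ncard_insert_of_notMem hnot (Set.finite_range _)
      have h2 := Set.ncard_le_ncard (Set.insert_subset hm' hr) hfin
      omega
    have hf0 : ∀ t, f t = 0 := by
      intro t
      by_cases ht : t ∈ Set.range H.s
      · obtain ⟨i, rfl⟩ := ht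
        obtain ⟨j, n, h⟩ := rep H.pos i
        rw [h, s_per]
        exact hz j
      · exact hf.2.2 t ht
    ext i
    change i - H.k * f (H.s i) ∈ H.tr P ↔ _
    rw [hf0, mul_zero, sub_zero]

end Pool.CS
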