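import Pool.Agent.Work.MP_64ea0f_cs.InterfaceB

set_option autoImplicit false

namespace Pool.CS

theorem dim_thm : Stmt_BAS → Stmt_FINO → Stmt_RSF → Stmt_DIM := by
  intro hB hF hR D
  obtain ⟨_, _, _, _, _, hB1, _, _, _, _, _, _, _, _, hinj, _⟩ := hB D
  obtain ⟨N, hN, hfin, htor, _, _⟩ := hR D ∅ Set.finite_empty (Set.notMem_empty _)
  have := hN
  have := hfin
  have : Finite (D.W ⧸ N) := Subgroup.finite_quotient_of_finiteIndex
  have : Fintype (D.W ⧸ N) := Fintype.ofFinite _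
  classical
  refine ⟨Fintype.card (D.W ⧸ N), fun A hA hc => ?_⟩
  have hi : Set.InjOn (fun φ => (QuotientGroup.mk (D.rf φ) : D.W ⧸ N)) (A : Set D.V) := by
    intro φ hφ ψ hψ h
    by_contra hne
    have h1 := hc φ hφ ψ hψ hne
    obtain ⟨k, hk, hk1⟩ := hF D φ (hA φ hφ) ψ (hA ψ hψ) h1
    have h2 : (D.rf φ)⁻¹ * D.rf ψ ∈ N := QuotientGroup.eq.1 h
    have h3 : (D.rf φ)⁻¹ = D.rf φ := by
      have := (hB D).2.2.2.2.2.2.2.2.2.2.1 φ (hA φ hφ)
      exact inv_eq_of_mul_eq_one_left this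
    rw [h3] at h2
    have h4 := htor _ h2 k hk hk1
    have h5 : D.rf φ = D.rf ψ := by
      rw [← h3, inv_mul_eq_one] at h4
      exact h4
    rcases hinj φ (hA φ hφ) ψ (hA ψ hψ) h5 with h6 | h6
    · exact hne h6.symm
    · have h7 := hB1 φ (hA φ hφ)
      have h8 : D.B φ ψ = -1 := by
        rw [h6]
        have h9 := (hB D).2.1 (-1) 0 φ φ φ
        have h10 := (hB D).1 φ (-φ)
        rw [h10]
        simp only [neg_smul, one_smul, zero_smul, add_zero, zero_mul] at h9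
        rw [h9, h7]
        norm_num
      rw [h8] at h1
      norm_num at h1
  calc A.card = (A.image (fun φ => (QuotientGroup.mk (D.rf φ) : D.W ⧸ N))).card :=
        (Finset.card_image_of_injOn hi).symm
    _ ≤ Fintype.card (D.W ⧸ N) := Finset.card_le_univ _

end Pool.CS
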