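import Pool.Agent.Work.MP_64ea0f_cs.InterfaceE
import Pool.Agent.Work.MP_64ea0f_cs.InterfaceD

set_option autoImplicit false
set_option linter.unusedSectionVars false
set_option linter.unusedVariables false

namespace Pool.CS

namespace SMT

section base
variable {Λ : Type} {G : SimpleGraph Λ} {Y : Type} (L : LS G Y)

theorem mv : Mv L := by
  intro a b hab y _
  rw [L.com b a hab.symm y]
  constructor
  · intro h h'
    exact h (by rw [h'])
  · intro h h'
    apply h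
    have := congrArg (L.τ a) h'
    rwa [L.inv, L.inv] at this

theorem mem_rsub {I : Set Λ} {s : Λ} (h : s ∈ I) : rg G s ∈ rsub G I :=
  Subgroup.subset_closure ⟨s, h, rfl⟩

theorem rsub_mono {I J : Set Λ} (h : I ⊆ J) : rsub G I ≤ rsub G J :=
  Subgroup.closure_mono (Set.image_mono h)

theorem r_inv (y : Y) (γ : RC G) : L.r (L.r y γ) γ⁻¹ = y := by
  rw [← L.r_mul, mul_inv_cancel, L.r_one]

theorem r_inv' (y : Y) (γ : RC G) : L.r (L.r y γ⁻¹) γ = y := by
  rw [← L.r_mul, inv_mul_cancel, L.r_one]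

/-- moving is stable under `rsub` of a clique -/
theorem mv_r {I : Set Λ} (hI : G.IsClique I) {γ : RC G} (hγ : γ ∈ rsub G I) :
    ∀ y, ∀ t ∈ I, (L.τ t (L.r y γ) = L.r y γ ↔ L.τ t y = y) := by
  induction hγ using Subgroup.closure_induction with
  | mem x hx =>
    obtain ⟨s, hs, rfl⟩ := hx
    intro y t ht
    rw [L.r_rg]
    by_cases hst : t = s
    · subst hst
      rw [L.inv]
      exact eq_comm
    · rw [L.com t s (hI ht hs hst) y]
      constructor
      · intro h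
        have := congrArg (L.τ s) h
        rwa [L.inv, L.inv] at this
      · intro h
        rw [h]
  | one =>
    intro y t _
    rw [L.r_one]
  | mul x x' _ _ h h' =>
    intro y t ht
    rw [L.r_mul, h' _ t ht, h _ t ht]
  | inv x _ h =>
    intro y t ht
    have := h (L.r y x⁻¹) t ht
    rw [r_inv'] at this
    exact this.symm

theorem fl_r {y : Y} {l : List (Set Λ)} (hl : Fl G (mvs L y) l) {γ : RC G}
    (hγ : ∀ I ∈ l, γ ∈ rsub G I) : Fl G (mvs L (L.r y γ)) l :=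
  ⟨hl.1, fun I hI => ⟨(hl.2 I hI).1, fun t ht =>
    (mv_r L (hl.2 I hI).1 (hγ I hI) y t ht).not.2 ((hl.2 I hI).2 ht)⟩⟩

/-- elements of `rsub` of a clique are involutions -/
theorem sq_one {I : Set Λ} (hI : G.IsClique I) {γ : RC G} (hγ : γ ∈ rsub G I) : γ * γ = 1 := by
  have hc : ∀ x ∈ rg G '' I, ∀ y ∈ rg G '' I, x * y = y * x := by
    rintro _ ⟨a, ha, rfl⟩ _ ⟨b, hb, rfl⟩
    by_cases h : a = b
    · rw [h]
    · exact rg_comm (hI ha hb h)
  have hcc : ∀ x ∈ rsub G I, ∀ y ∈ rsub G I, x * y = y * x := by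
    intro x hx y hy
    have h1 := Subgroup.closure_le_centralizer_centralizer (rg G '' I)
    have h2 : y ∈ Subgroup.centralizer (rg G '' I) := by
      have h3 : Subgroup.closure (rg G '' I) ≤ Subgroup.centralizer (rg G '' I) := by
        rw [Subgroup.closure_le]
        intro z hz
        rw [SetLike.mem_coe, Subgroup.mem_centralizer_iff]
        exact fun w hw => hc w hw z hz
      exact h3 hy
    have h4 := h1 hx
    rw [Subgroup.mem_centralizer_iff] at h4
    exact (h4 y h2).symm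
  induction hγ using Subgroup.closure_induction with
  | mem x hx =>
    obtain ⟨s, _, rfl⟩ := hx
    exact rg_mul_self G s
  | one => exact one_mul 1
  | mul x x' hx hx' h h' =>
    calc x * x' * (x * x') = x * (x' * x) * x' := by group
      _ = x * (x * x') * x' := by rw [hcc x' hx' x hx]
      _ = (x * x) * (x' * x') := by group
      _ = 1 := by rw [h, h', one_mul]
  | inv x _ h =>
    rw [← mul_inv_rev, h, inv_one]

/-- flags -/
abbrev FT (k : ℕ) : Type :=
  {x : Y × List (Set Λ) // Fl G (mvs L x.1) x.2 ∧ x.2.length = k + 1}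

theorem tcoch_r {F : Type} [AddCommGroup F] {k : ℕ} {φ : Y → List (Set Λ) → F}
    (hφ : TCoch L k φ) {y : Y} {l : List (Set Λ)} (hl : Fl G (mvs L y) l)
    (hk : l.length = k + 1) {γ : RC G} (hγ : ∀ I ∈ l, γ ∈ rsub G I) :
    φ (L.r y γ) l = φ y l := by
  cases l with
  | nil => simp at hk
  | cons I l =>
    have hk' : l.length = k := by simpa using hk
    have hsub : ∀ J ∈ I :: l, I ⊆ J := by
      intro J hJ
      rcases List.mem_cons.1 hJ with h | h
      · rw [h]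
      · exact (hl.ss h).subset
    have hγ' := hγ I List.mem_cons_self
    clear hγ
    have main : ∀ γ ∈ rsub G I, ∀ y, Fl G (mvs L y) (I :: l) →
        φ (L.r y γ) (I :: l) = φ y (I :: l) := by
      intro γ hγ
      induction hγ using Subgroup.closure_induction with
      | mem x hx =>
        obtain ⟨s, hs, rfl⟩ := hx
        intro y hy
        rw [L.r_rg]
        exact hφ y I l hy hk' s hs
      | one =>
        intro y _
        rw [L.r_one]
      | mul x x' hx _ h h' =>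
        intro y hy
        rw [L.r_mul, h' _ (fl_r L hy fun J hJ => rsub_mono (hsub J hJ) hx), h _ hy]
      | inv x hx h =>
        intro y hy
        have h1 : Fl G (mvs L (L.r y x⁻¹)) (I :: l) :=
          fl_r L hy fun J hJ => (rsub G J).inv_mem (rsub_mono (hsub J hJ) hx)
        have := h _ h1
        rw [r_inv'] at this
        exact this.symm
    exact main γ hγ' y hl

end base

section act
variable {Λ : Type} {G : SimpleGraph Λ} {Y : Type} (L : LS G Y)
variable {N : Type} [Group N] [MulAction N Y] [MulAction N Λ]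

/-- the image of a set of letters -/
def im (n : N) (I : Set Λ) : Set Λ := (fun a => n • a) '' I

theorem mem_im {n : N} {I : Set Λ} {a : Λ} : n • a ∈ im n I ↔ a ∈ I := by
  constructor
  · rintro ⟨b, hb, h⟩
    rwa [← MulAction.injective n h]
  · intro h
    exact ⟨a, h, rfl⟩

theorem im_mul (n n' : N) (I : Set Λ) : im (n * n') I = im n (im n' I) := by
  unfold im
  rw [Set.image_image]
  simp only [mul_smul]

theorem im_one (I : Set Λ) : im (1 : N) I = I := by
  unfold im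
  simp

theorem im_triv {m : N} (hm : ∀ a : Λ, m • a = a) (I : Set Λ) : im m I = I := by
  unfold im
  simp [hm]

theorem im_eq_iff (n : N) (I : Set Λ) : im n I = I ↔ ∀ a, a ∈ I ↔ n • a ∈ I := by
  constructor
  · intro h a
    rw [← mem_im (n := n), h]
  · intro h
    ext b
    constructor
    · rintro ⟨a, ha, rfl⟩
      exact (h a).1 ha
    · intro hb
      refine ⟨n⁻¹ • b, ?_, smul_inv_smul n b⟩
      rw [h, smul_inv_smul]
      exact hb

/-- the induced automorphism of the group of letters -/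
noncomputable def th (hadj : ∀ (n : N) a b, G.Adj a b → G.Adj (n • a) (n • b)) (n : N) :
    RC G →* RC G :=
  rlift G (fun a => rg G (n • a)) (fun a => rg_mul_self G _) (fun a b h => rg_comm (hadj n a b h))

theorem r_th (hadj : ∀ (n : N) a b, G.Adj a b → G.Adj (n • a) (n • b))
    (hτ : ∀ (n : N) a y, L.τ (n • a) (n • y) = n • L.τ a y) (n : N) (y : Y) (γ : RC G) :
    L.r (n • y) (th hadj n γ) = n • L.r y γ := by
  induction γ using rac_induction_right with
  | h1 => rw [map_one, L.r_one, L.r_one]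
  | h2 a c ih =>
    rw [map_mul, L.r_mul, ih, L.r_mul, L.r_rg]
    have : th hadj n (rg G a) = rg G (n • a) := by
      unfold th
      rw [rlift_rg]
    rw [this, L.r_rg, hτ]

theorem th_mem (hadj : ∀ (n : N) a b, G.Adj a b → G.Adj (n • a) (n • b)) (n : N) {I : Set Λ}
    {γ : RC G} (hγ : γ ∈ rsub G I) : th hadj n γ ∈ rsub G (im n I) := by
  induction hγ using Subgroup.closure_induction with
  | mem x hx =>
    obtain ⟨s, hs, rfl⟩ := hx
    have : th hadj n (rg G s) = rg G (n • s) := by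
      unfold th
      rw [rlift_rg]
    rw [this]
    exact mem_rsub ⟨s, hs, rfl⟩
  | one =>
    rw [map_one]
    exact (rsub G _).one_mem
  | mul x x' _ _ h h' =>
    rw [map_mul]
    exact (rsub G _).mul_mem h h'
  | inv x _ h =>
    rw [map_inv]
    exact (rsub G _).inv_mem h

theorem fl_im (hadj : ∀ (n : N) a b, G.Adj a b → G.Adj (n • a) (n • b))
    (hτ : ∀ (n : N) a y, L.τ (n • a) (n • y) = n • L.τ a y) (n : N) {y : Y}
    {l : List (Set Λ)} (h : Fl G (mvs L y) l) : Fl G (mvs L (n • y)) (l.map (im n)) := by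
  refine ⟨?_, ?_⟩
  · rw [List.pairwise_map]
    refine h.1.imp fun {I J} hIJ => ?_
    exact (MulAction.injective n).image_strictMono hIJ
  · intro I' hI'
    obtain ⟨I, hI, rfl⟩ := List.mem_map.1 hI'
    refine ⟨?_, ?_⟩
    · rintro _ ⟨a, ha, rfl⟩ _ ⟨b, hb, rfl⟩ hab
      exact hadj n a b ((h.2 I hI).1 ha hb fun h => hab (by rw [h]))
    · rintro _ ⟨a, ha, rfl⟩
      have h1 := (h.2 I hI).2 ha
      change L.τ (n • a) (n • y) ≠ n • y
      rw [hτ]
      exact fun h2 => h1 (MulAction.injective n h2)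

/-- `m` commutes with the letters -/
def Cm (m : N) : Prop := ∀ a y, L.τ a (m • y) = m • L.τ a y

theorem cm_r {m : N} (hm : Cm L m) (y : Y) (γ : RC G) : L.r (m • y) γ = m • L.r y γ := by
  induction γ using rac_induction_right with
  | h1 => rw [L.r_one, L.r_one]
  | h2 a c ih => rw [L.r_mul, L.r_mul, ih, L.r_rg, L.r_rg, hm]

theorem cm_mvs {m : N} (hm : Cm L m) (y : Y) : mvs L (m • y) = mvs L y := by
  ext s
  change L.τ s (m • y) ≠ m • y ↔ L.τ s y ≠ y
  rw [hm s y]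
  exact (MulAction.injective m).ne_iff

/-- the relation: `(y, l) ~ (m • L.r y γ, l)` -/
def rel (M : Subgroup N) (x x' : Y × List (Set Λ)) : Prop :=
  x'.2 = x.2 ∧ ∃ m ∈ M, ∃ γ, (∀ I ∈ x.2, γ ∈ rsub G I) ∧ x'.1 = m • L.r x.1 γ

theorem rel_fl {M : Subgroup N} (hM : ∀ m ∈ M, Cm L m) {x x' : Y × List (Set Λ)}
    (h : rel L M x x') (hx : Fl G (mvs L x.1) x.2) : Fl G (mvs L x'.1) x'.2 := by
  obtain ⟨h1, m, hm, γ, hγ, h2⟩ := h
  rw [h1, h2, cm_mvs L (hM m hm)]
  exact fl_r L hx hγ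

theorem rel_refl (M : Subgroup N) (x : Y × List (Set Λ)) : rel L M x x :=
  ⟨rfl, 1, M.one_mem, 1, fun _ _ => Subgroup.one_mem _, by rw [L.r_one, one_smul]⟩

theorem rel_symm {M : Subgroup N} (hM : ∀ m ∈ M, Cm L m) {x x' : Y × List (Set Λ)}
    (h : rel L M x x') : rel L M x' x := by
  obtain ⟨h1, m, hm, γ, hγ, h2⟩ := h
  refine ⟨h1.symm, m⁻¹, M.inv_mem hm, γ⁻¹, ?_, ?_⟩
  · intro I hI
    exact (rsub G I).inv_mem (hγ I (h1 ▸ hI))
  · rw [h2, cm_r L (hM m hm), inv_smul_smul, r_inv]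

theorem rel_trans {M : Subgroup N} (hM : ∀ m ∈ M, Cm L m) {x x' x'' : Y × List (Set Λ)}
    (h : rel L M x x') (h' : rel L M x' x'') : rel L M x x'' := by
  obtain ⟨h1, m, hm, γ, hγ, h2⟩ := h
  obtain ⟨h1', m', hm', γ', hγ', h2'⟩ := h'
  refine ⟨h1'.trans h1, m' * m, M.mul_mem hm' hm, γ * γ', ?_, ?_⟩
  · intro I hI
    exact (rsub G I).mul_mem (hγ I hI) (hγ' I (h1.symm ▸ hI))
  · rw [h2', h2, cm_r L (hM m hm), L.r_mul, mul_smul]

/-- the setoid of the quotient -/
def std (M : Subgroup N) (hM : ∀ m ∈ M, Cm L m) (k : ℕ) : Setoid (FT L k) where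
  r x x' := rel L M x.1 x'.1
  iseqv := ⟨fun x => rel_refl L M x.1, fun h => rel_symm L hM h, fun h h' => rel_trans L hM h h'⟩

/-- simplices -/
abbrev S (M : Subgroup N) (hM : ∀ m ∈ M, Cm L m) (k : ℕ) : Type := Quotient (std L M hM k)

variable {F : Type} [AddCommGroup F]

open Classical in
/-- extension of a function on simplices -/
noncomputable def ext {M : Subgroup N} {hM : ∀ m ∈ M, Cm L m} {k : ℕ} (f : S L M hM k → F)
    (y : Y) (l : List (Set Λ)) : F :=
  if h : Fl G (mvs L y) l ∧ l.length = k + 1 then f (Quotient.mk _ ⟨(y, l), h⟩) else 0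

theorem ext_pos {M : Subgroup N} {hM : ∀ m ∈ M, Cm L m} {k : ℕ} (f : S L M hM k → F)
    {y : Y} {l : List (Set Λ)} (h : Fl G (mvs L y) l ∧ l.length = k + 1) :
    ext L f y l = f (Quotient.mk _ ⟨(y, l), h⟩) := dif_pos h

theorem ext_add {M : Subgroup N} {hM : ∀ m ∈ M, Cm L m} {k : ℕ} (f g : S L M hM k → F)
    (y : Y) (l : List (Set Λ)) : ext L (f + g) y l = ext L f y l + ext L g y l := by
  by_cases h : Fl G (mvs L y) l ∧ l.length = k + 1
  · rw [ext_pos L _ h, ext_pos L _ h, ext_pos L _ h]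
    rfl
  · unfold ext
    rw [dif_neg h, dif_neg h, dif_neg h, add_zero]

theorem ext_rel {M : Subgroup N} {hM : ∀ m ∈ M, Cm L m} {k : ℕ} (f : S L M hM k → F)
    {x x' : Y × List (Set Λ)} (h : rel L M x x') : ext L f x'.1 x'.2 = ext L f x.1 x.2 := by
  by_cases hx : Fl G (mvs L x.1) x.2 ∧ x.2.length = k + 1
  · have hx' : Fl G (mvs L x'.1) x'.2 ∧ x'.2.length = k + 1 :=
      ⟨rel_fl L hM h hx.1, by rw [h.1]; exact hx.2⟩
    rw [ext_pos L f hx, ext_pos L f hx']
    congr 1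
    exact Quotient.sound (rel_symm L hM h)
  · have hx' : ¬ (Fl G (mvs L x'.1) x'.2 ∧ x'.2.length = k + 1) := fun hx' =>
      hx ⟨rel_fl L hM (rel_symm L hM h) hx'.1, by rw [← h.1]; exact hx'.2⟩
    unfold ext
    rw [dif_neg hx, dif_neg hx']

theorem rel_sub {M : Subgroup N} {x x' : Y × List (Set Λ)} (h : rel L M x x')
    {l : List (Set Λ)} (hl : l.Sublist x.2) : rel L M (x.1, l) (x'.1, l) := by
  obtain ⟨_, m, hm, γ, hγ, h2⟩ := h
  exact ⟨rfl, m, hm, γ, fun I hI => hγ I (hl.subset hI), h2⟩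

/-- the coboundary -/
noncomputable def dl (M : Subgroup N) (hM : ∀ m ∈ M, Cm L m) (k : ℕ) :
    (S L M hM k → F) →+ (S L M hM (k + 1) → F) where
  toFun f := Quotient.lift (fun x => del (ext L f x.1.1) x.1.2) (by
    intro x x' h
    have h1 : rel L M x.1 x'.1 := h
    have h2 : x'.1.2 = x.1.2 := h1.1
    change del (ext L f x.1.1) x.1.2 = del (ext L f x'.1.1) x'.1.2
    rw [h2]
    exact del_congr fun l' hl' _ => (ext_rel L f (rel_sub L h1 hl')).symm)
  map_zero' := by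
    funext x
    induction x using Quotient.ind with | _ x =>
    change del (ext L (0 : S L M hM k → F) x.1.1) x.1.2 = 0
    refine del_eq_zero fun l' _ _ => ?_
    unfold ext
    split_ifs <;> rfl
  map_add' f g := by
    funext x
    induction x using Quotient.ind with | _ x =>
    change del (ext L (f + g) x.1.1) x.1.2 = del (ext L f x.1.1) x.1.2 + del (ext L g x.1.1) x.1.2
    rw [← del_add]
    exact del_congr fun l' _ _ => ext_add L f g _ _

theorem dl_mk {M : Subgroup N} {hM : ∀ m ∈ M, Cm L m} {k : ℕ} (f : S L M hM k → F)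
    (x : FT L (k + 1)) : dl L M hM k f (Quotient.mk _ x) = del (ext L f x.1.1) x.1.2 := rfl

theorem fl_sub {k : ℕ} (x : FT L (k + 1)) {l : List (Set Λ)} (hl : l.Sublist x.1.2)
    (hn : l.length + 1 = x.1.2.length) : Fl G (mvs L x.1.1) l ∧ l.length = k + 1 :=
  ⟨x.2.1.sublist hl, by have := x.2.2; omega⟩

theorem dl_dl {M : Subgroup N} {hM : ∀ m ∈ M, Cm L m} {k : ℕ} (f : S L M hM k → F) :
    dl L M hM (k + 1) (dl L M hM k f) = 0 := by
  funext x
  induction x using Quotient.ind with | _ x =>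
  rw [dl_mk]
  change _ = (0 : F)
  rw [← del_del (ext L f x.1.1) x.1.2]
  refine del_congr fun l' h1 h2 => ?_
  rw [ext_pos L _ (fl_sub L x h1 h2), dl_mk]

theorem ext_tcoch {M : Subgroup N} {hM : ∀ m ∈ M, Cm L m} {k : ℕ} (f : S L M hM k → F) :
    TCoch L k (ext L f) := by
  intro y x l hl _ s hs
  refine ext_rel L f (x := (y, x :: l)) (x' := (L.τ s y, x :: l)) ?_
  refine ⟨rfl, 1, M.one_mem, rg G s, ?_, ?_⟩
  · intro I hI
    apply mem_rsub
    rcases List.mem_cons.1 hI with h | h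
    · rw [h]
      exact hs
    · exact (hl.ss h).subset hs
  · rw [L.r_rg, one_smul]

/-- descent of an invariant cochain -/
def desc {M : Subgroup N} (hM : ∀ m ∈ M, Cm L m) {k : ℕ} {φ : Y → List (Set Λ) → F}
    (h1 : TCoch L k φ) (h2 : ∀ m ∈ M, ∀ y l, Fl G (mvs L y) l → l.length = k + 1 →
      φ (m • y) l = φ y l) : S L M hM k → F :=
  Quotient.lift (fun x => φ x.1.1 x.1.2) (by
    rintro ⟨⟨y, l⟩, hl, hk⟩ ⟨⟨y', l'⟩, hl', hk'⟩ ⟨e, m, hm, γ, hγ, e2⟩
    change φ y l = φ y' l'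
    change l' = l at e
    change ∀ I ∈ l, γ ∈ rsub G I at hγ
    change y' = m • L.r y γ at e2
    change Fl G (mvs L y) l at hl
    change l.length = k + 1 at hk
    rw [e, e2, h2 m hm _ _ (fl_r L hl hγ) hk, tcoch_r L h1 hl hk hγ])

/-- the projection -/
def prj {M M' : Subgroup N} (hM : ∀ m ∈ M, Cm L m) (hM' : ∀ m ∈ M', Cm L m) (h : M' ≤ M) (k : ℕ) :
    S L M' hM' k → S L M hM k :=
  Quotient.map id (fun x x' hx => by
    obtain ⟨e, m, hm, γ, hγ, e2⟩ := hx
    exact ⟨e, m, h hm, γ, hγ, e2⟩)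

theorem van (hT : Stmt_TRF) [Finite Λ] [Finite F] (N0 : Subgroup N) (hN0 : ∀ m ∈ N0, Cm L m)
    (c : N0 →* RC G) (κ : Y → RC G)
    (hκ : ∀ a y, L.τ a y ≠ y → κ (L.τ a y) = κ y * rg G a)
    (hc : ∀ (m : N0) (y : Y), κ ((m : N) • y) = c m * κ y)
    (M : Subgroup N) (hMN : M ≤ N0) (P : Set Y) (hP : P.Finite)
    (hP2 : ∀ y : Y, ∃ m ∈ M, m • y ∈ P) (k : ℕ)
    (f : S L M (fun m hm => hN0 m (hMN hm)) (k + 1) → F)
    (hf : dl L M (fun m hm => hN0 m (hMN hm)) (k + 1) f = 0) :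
    ∃ MC : Subgroup (RC G), MC.Normal ∧ MC.FiniteIndex ∧ ∀ (M' : Subgroup N) (hM' : M' ≤ M),
      (∀ m : N0, (m : N) ∈ M' → c m ∈ MC) →
      ∃ g : S L M' (fun m hm => hN0 m (hMN (hM' hm))) k → F,
        dl L M' (fun m hm => hN0 m (hMN (hM' hm))) k g = fun x => f (prj L _ _ hM' (k + 1) x) := by
  have hfin : Finite (MulAction.orbitRel.Quotient M Y) := by
    have : Finite P := hP
    refine Finite.of_surjective (fun y : P => (Quotient.mk _ y.1 :
      MulAction.orbitRel.Quotient M Y)) ?_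
    intro q
    induction q using Quotient.ind with | _ y =>
    obtain ⟨m, hm, hmP⟩ := hP2 y
    exact ⟨⟨m • y, hmP⟩, Quotient.sound ⟨⟨m, hm⟩, rfl⟩⟩
  obtain ⟨MC, h1, h2, ψ, h3, h4, h5⟩ := hT Λ G F Y L M κ (fun m => c ⟨m.1, hMN m.2⟩) k (ext L f)
    (mv L) (fun m s y => hN0 m.1 (hMN m.2) s y) hfin hκ (fun m y => hc ⟨m.1, hMN m.2⟩ y)
    (ext_tcoch L f) (by
      intro y l hl hk
      have := congrFun hf (Quotient.mk _ ⟨(y, l), hl, hk⟩)
      rw [dl_mk] at this
      exact this) (by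
      intro m y l hl hk
      refine ext_rel L f (x := (y, l)) (x' := ((m : N) • y, l)) ?_
      exact ⟨rfl, m.1, m.2, 1, fun _ _ => Subgroup.one_mem _, by rw [L.r_one]⟩)
  refine ⟨MC, h1, h2, fun M' hM' hMC => ?_⟩
  refine ⟨desc L _ h3 (fun m hm y l hl hk => ?_), ?_⟩
  · exact h5 ⟨m, hM' hm⟩ (hMC ⟨m, hMN (hM' hm)⟩ hm) y l hl hk
  · funext x
    induction x using Quotient.ind with | _ x =>
    rw [dl_mk]
    have h6 : f (prj L (fun m hm => hN0 m (hMN hm)) (fun m hm => hN0 m (hMN (hM' hm))) hM' (k + 1)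
        (Quotient.mk _ x)) = ext L f x.1.1 x.1.2 := (ext_pos L f x.2).symm
    rw [h6, h4 _ _ x.2.1 x.2.2]
    refine del_congr fun l' h7 h8 => ?_
    rw [ext_pos L _ (fl_sub L x h7 h8)]
    rfl

theorem finS [Finite Λ] {M : Subgroup N} (hM : ∀ m ∈ M, Cm L m) (P : Set Y) (hP : P.Finite)
    (hP2 : ∀ y : Y, ∃ m ∈ M, m • y ∈ P) (k : ℕ) : Finite (S L M hM k) := by
  have h1 : {l : List (Set Λ) | l.length = k + 1}.Finite := List.finite_length_eq (Set Λ) (k + 1)
  have h2 : {x : Y × List (Set Λ) | (x.1 ∈ P ∧ x.2.length = k + 1) ∧ Fl G (mvs L x.1) x.2}.Finite := by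
    refine (hP.prod h1).subset ?_
    rintro ⟨y, l⟩ ⟨⟨h, h'⟩, _⟩
    exact ⟨h, h'⟩
  have : Finite {x : Y × List (Set Λ) | (x.1 ∈ P ∧ x.2.length = k + 1) ∧ Fl G (mvs L x.1) x.2} := h2
  refine Finite.of_surjective (fun x : {x : Y × List (Set Λ) |
    (x.1 ∈ P ∧ x.2.length = k + 1) ∧ Fl G (mvs L x.1) x.2} =>
      (Quotient.mk _ ⟨x.1, x.2.2, x.2.1.2⟩ : S L M hM k)) ?_
  intro q
  induction q using Quotient.ind with | _ x =>
  obtain ⟨m, hm, hmP⟩ := hP2 x.1.1
  have h3 : rel L M x.1 (m • x.1.1, x.1.2) :=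
    ⟨rfl, m, hm, 1, fun _ _ => Subgroup.one_mem _, by rw [L.r_one]⟩
  exact ⟨⟨(m • x.1.1, x.1.2), ⟨hmP, x.2.2⟩, rel_fl L hM h3 x.2.1⟩,
    Quotient.sound (rel_symm L hM h3)⟩

section tower
variable (hadj : ∀ (n : N) a b, G.Adj a b → G.Adj (n • a) (n • b))
  (hτ : ∀ (n : N) a y, L.τ (n • a) (n • y) = n • L.τ a y)

/-- the action on flags -/
def sg (n : N) (k : ℕ) (x : FT L k) : FT L k :=
  ⟨(n • x.1.1, x.1.2.map (im n)), fl_im L hadj hτ n x.2.1, by
    rw [List.length_map]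
    exact x.2.2⟩

include hadj hτ in
theorem rel_act {M : Subgroup N} (hN : M.Normal) (n : N) {x x' : Y × List (Set Λ)}
    (h : rel L M x x') :
    rel L M (n • x.1, x.2.map (im n)) (n • x'.1, x'.2.map (im n)) := by
  obtain ⟨e, m, hm, γ, hγ, e2⟩ := h
  refine ⟨by rw [e], n * m * n⁻¹, hN.conj_mem m hm n, th hadj n γ, ?_, ?_⟩
  · intro I' hI'
    obtain ⟨I, hI, rfl⟩ := List.mem_map.1 hI'
    exact th_mem hadj n (hγ I hI)
  · change n • x'.1 = (n * m * n⁻¹) • L.r (n • x.1) (th hadj n γ)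
    rw [r_th L hadj hτ, e2, mul_smul, mul_smul, inv_smul_smul]

/-- the action on simplices -/
def sgm {M : Subgroup N} (hM : ∀ m ∈ M, Cm L m) (hN : M.Normal) (n : N) (k : ℕ) :
    S L M hM k → S L M hM k :=
  Quotient.map (sg L hadj hτ n k) (fun _ _ h => rel_act L hadj hτ hN n h)

theorem sgm_mk {M : Subgroup N} (hM : ∀ m ∈ M, Cm L m) (hN : M.Normal) (n : N) (k : ℕ)
    (x : FT L k) : sgm L hadj hτ hM hN n k (Quotient.mk _ x) =
      Quotient.mk _ (sg L hadj hτ n k x) := rfl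

theorem sg_iter (n : N) (k : ℕ) (i : ℕ) (x : FT L k) :
    ((sg L hadj hτ n k)^[i] x).1 = ((n ^ i) • x.1.1, x.1.2.map (im (n ^ i))) := by
  induction i with
  | zero =>
    rw [Function.iterate_zero, id, pow_zero, one_smul]
    have : (im (1 : N) : Set Λ → Set Λ) = id := by
      funext I
      exact im_one I
    rw [this, List.map_id]
  | succ i ih =>
    rw [Function.iterate_succ_apply']
    change (n • ((sg L hadj hτ n k)^[i] x).1.1, ((sg L hadj hτ n k)^[i] x).1.2.map (im n)) = _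
    rw [ih, pow_succ', mul_smul, List.map_map]
    congr 2
    funext I
    exact (im_mul n (n ^ i) I).symm

theorem sgm_pow {M : Subgroup N} (hM : ∀ m ∈ M, Cm L m) (hN : M.Normal) (n : N) (k : ℕ) {p : ℕ}
    (hn : n ^ p = 1) (q : S L M hM k) : (sgm L hadj hτ hM hN n k)^[p] q = q := by
  induction q using Quotient.ind with | _ x =>
  have h1 : (sgm L hadj hτ hM hN n k)^[p] (Quotient.mk _ x) =
      Quotient.mk _ ((sg L hadj hτ n k)^[p] x) := by
    have : Function.Semiconj (Quotient.mk (std L M hM k)) (sg L hadj hτ n k)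
        (sgm L hadj hτ hM hN n k) := fun x => (sgm_mk L hadj hτ hM hN n k x).symm
    exact ((this.iterate_right p) x).symm
  rw [h1]
  congr 1
  apply Subtype.ext
  rw [sg_iter, hn, one_smul]
  have : (im (1 : N) : Set Λ → Set Λ) = id := by
    funext I
    exact im_one I
  rw [this, List.map_id]

theorem map_self {α : Type} {f : α → α} {l : List α} (h : l.map f = l) : ∀ a ∈ l, f a = a := by
  induction l with
  | nil => simp
  | cons b l ih =>
    rw [List.map_cons, List.cons.injEq] at h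
    intro a ha
    rcases List.mem_cons.1 ha with h1 | h1
    · rw [h1]
      exact h.1
    · exact ih h.2 a h1

theorem self_map {α : Type} {f : α → α} {l : List α} (h : ∀ a ∈ l, f a = a) : l.map f = l := by
  induction l with
  | nil => rfl
  | cons b l ih =>
    rw [List.map_cons, h b List.mem_cons_self, ih fun a ha => h a (List.mem_cons_of_mem _ ha)]

/-- the tower -/
noncomputable def tw (F : Type) [AddCommGroup F] {p : ℕ} (n : N) (hn : n ^ p = 1)
    (Ms : ℕ → Subgroup N)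
    (hM : ∀ j, ∀ m ∈ Ms j, Cm L m) (hnor : ∀ j, (Ms j).Normal) (hle : ∀ j, Ms (j + 1) ≤ Ms j) :
    Tow p F where
  S j k := S L (Ms j) (hM j) k
  pr j k := prj L (hM j) (hM (j + 1)) (hle j) k
  σ j k := sgm L hadj hτ (hM j) (hnor j) n k
  δ j k := dl L (Ms j) (hM j) k
  pow j k x := sgm_pow L hadj hτ (hM j) (hnor j) n k hn x
  prσ j k x := by
    induction x using Quotient.ind with | _ x =>
    rfl
  δδ j k f := dl_dl L f
  δσ j k f := by
    funext x
    induction x using Quotient.ind with | _ x =>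
    rw [dl_mk, sgm_mk, dl_mk]
    change _ = del (ext L f (n • x.1.1)) (x.1.2.map (im n))
    rw [← del_map]
    refine del_congr fun l' h1 h2 => ?_
    have h3 := fl_sub L x h1 h2
    rw [ext_pos L _ h3, ext_pos L (l := l'.map (im n)) f
      ⟨fl_im L hadj hτ n h3.1, by rw [List.length_map]; exact h3.2⟩]
    rfl
  δpr j k f := by
    funext x
    induction x using Quotient.ind with | _ x =>
    change del (ext L _ x.1.1) x.1.2 = del (ext L f x.1.1) x.1.2
    refine del_congr fun l' h1 h2 => ?_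
    have h3 := fl_sub L x h1 h2
    rw [ext_pos L _ h3, ext_pos L f h3]
    rfl
  loc j k f hf x hx := by
    induction x using Quotient.ind with | _ x =>
    rw [dl_mk]
    rw [sgm_mk] at hx
    have h0 : rel L (Ms j) (n • x.1.1, x.1.2.map (im n)) x.1 := Quotient.exact hx
    have h1 : x.1.2 = x.1.2.map (im n) := h0.1
    refine del_eq_zero fun l' h2 h3 => ?_
    have h4 := fl_sub L x h2 h3
    rw [ext_pos L f h4]
    apply hf
    rw [sgm_mk]
    apply Quotient.sound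
    have h5 : l'.map (im n) = l' := self_map fun I hI => map_self h1.symm I (h2.subset hI)
    have h6 := rel_sub L h0 (l := l') (by
      change l'.Sublist (x.1.2.map (im n))
      rw [← h1]
      exact h2)
    change rel L (Ms j) (n • x.1.1, l'.map (im n)) (x.1.1, l')
    rw [h5]
    exact h6

end tower

section cubes

/-- `n` fixes the cube `(y, I)` -/
def CF (n : N) (y : Y) (I : Set Λ) : Prop := im n I = I ∧ ∃ γ ∈ rsub G I, n • y = L.r y γ

theorem cf_r (hadj : ∀ (n : N) a b, G.Adj a b → G.Adj (n • a) (n • b))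
    (hτ : ∀ (n : N) a y, L.τ (n • a) (n • y) = n • L.τ a y) {n : N} {y : Y} {I : Set Λ}
    (h : CF L n y I) {γ1 : RC G} (h1 : γ1 ∈ rsub G I) : CF L n (L.r y γ1) I := by
  obtain ⟨h2, γ, hγ, h3⟩ := h
  refine ⟨h2, γ1⁻¹ * (γ * th hadj n γ1), ?_, ?_⟩
  · refine (rsub G I).mul_mem ((rsub G I).inv_mem h1) ((rsub G I).mul_mem hγ ?_)
    have := th_mem hadj n h1
    rwa [h2] at this
  · rw [← r_th L hadj hτ, h3, ← L.r_mul, ← L.r_mul]
    congr 1
    group

theorem free {N0 : Subgroup N} (hN0 : ∀ m ∈ N0, Cm L m) {c : N0 →* RC G} {κ : Y → RC G}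
    (hinj : Function.Injective c) (hinv : ∀ m ∈ N0, m ^ 2 = 1 → m = 1)
    (hc : ∀ (m : N0) (y : Y), κ ((m : N) • y) = c m * κ y) {m : N} (hm : m ∈ N0) {y : Y}
    {I : Set Λ} (hI : G.IsClique I) {γ : RC G} (hγ : γ ∈ rsub G I) (h : m • y = L.r y γ) :
    m = 1 := by
  apply hinv m hm
  have h1 : (m * m) • y = y := by
    rw [mul_smul, h, ← cm_r L (hN0 m hm), h, ← L.r_mul, sq_one hI hγ, L.r_one]
  have h2 := hc (⟨m, hm⟩ * ⟨m, hm⟩) y
  have h3 : ((⟨m, hm⟩ * ⟨m, hm⟩ : N0) : N) • y = y := h1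
  rw [h3] at h2
  have h4 : c (⟨m, hm⟩ * ⟨m, hm⟩) = 1 := by
    have h5 : c (⟨m, hm⟩ * ⟨m, hm⟩) * κ y = 1 * κ y := by rw [← h2, one_mul]
    exact mul_right_cancel h5
  have h5 : (⟨m, hm⟩ * ⟨m, hm⟩ : N0) = 1 := hinj (by rw [h4, map_one])
  rw [pow_two]
  exact congrArg Subtype.val h5

theorem fl_one {y : Y} {I : Set Λ} (h1 : G.IsClique I) (h2 : I ⊆ mvs L y) :
    Fl G (mvs L y) [I] ∧ [I].length = 0 + 1 :=
  ⟨⟨List.pairwise_singleton _ _, fun J hJ => by
    rw [List.mem_singleton.1 hJ]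
    exact ⟨h1, h2⟩⟩, rfl⟩

/-- the class of a cube fixed by `n` -/
def E {M : Subgroup N} (hM : ∀ m ∈ M, Cm L m) (n : N) (q : S L M hM 0) : Prop :=
  ∃ (y : Y) (I : Set Λ) (h : Fl G (mvs L y) [I] ∧ [I].length = 0 + 1),
    q = Quotient.mk _ ⟨(y, [I]), h⟩ ∧ CF L n y I

theorem E_iff (hadj : ∀ (n : N) a b, G.Adj a b → G.Adj (n • a) (n • b))
    (hτ : ∀ (n : N) a y, L.τ (n • a) (n • y) = n • L.τ a y)
    {M : Subgroup N} (hM : ∀ m ∈ M, Cm L m) (n : N) (y : Y) (I : Set Λ)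
    (h : Fl G (mvs L y) [I] ∧ [I].length = 0 + 1) :
    E L hM n (Quotient.mk _ ⟨(y, [I]), h⟩) ↔ ∃ m ∈ M, CF L n (m • y) I := by
  constructor
  · rintro ⟨y', I', h', h1, h2⟩
    have h3 : rel L M (y, [I]) (y', [I']) := Quotient.exact h1
    obtain ⟨e, m, hm, γ, hγ, e2⟩ := h3
    have e' : I' = I := by
      have : [I'] = [I] := e
      simpa using this
    subst e'
    have hγ' : γ ∈ rsub G I' := hγ I' (List.mem_singleton.2 rfl)
    refine ⟨m, hm, ?_⟩
    have e3 : y' = L.r (m • y) γ := by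
      rw [cm_r L (hM m hm)]
      exact e2
    have := cf_r L hadj hτ h2 ((rsub G I').inv_mem hγ')
    rw [e3, r_inv] at this
    exact this
  · rintro ⟨m, hm, h1⟩
    refine ⟨m • y, I, ?_, Quotient.sound ⟨rfl, m, hm, 1, fun _ _ => Subgroup.one_mem _, by
      rw [L.r_one]⟩, h1⟩
    rw [cm_mvs L (hM m hm)]
    exact h

theorem edge (hadj : ∀ (n : N) a b, G.Adj a b → G.Adj (n • a) (n • b))
    (hτ : ∀ (n : N) a y, L.τ (n • a) (n • y) = n • L.τ a y)
    {N0 : Subgroup N} (hN0 : ∀ m ∈ N0, Cm L m) {c : N0 →* RC G} {κ : Y → RC G}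
    (hinj : Function.Injective c) (hinv : ∀ m ∈ N0, m ^ 2 = 1 → m = 1)
    (hc : ∀ (m : N0) (y : Y), κ ((m : N) • y) = c m * κ y)
    {M : Subgroup N} (hM : ∀ m ∈ M, Cm L m) (hMN : M ≤ N0) (hN : M.Normal) (n : N) (y : Y)
    {l : List (Set Λ)} (hl : rel L M (n • y, l.map (im n)) (y, l)) {I I' : Set Λ} (hI : I ∈ l)
    (hI' : I' ∈ l) (h : Fl G (mvs L y) [I] ∧ [I].length = 0 + 1)
    (h' : Fl G (mvs L y) [I'] ∧ [I'].length = 0 + 1)
    (hE : E L hM n (Quotient.mk _ ⟨(y, [I]), h⟩)) :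
    E L hM n (Quotient.mk _ ⟨(y, [I']), h'⟩) := by
  rw [E_iff L hadj hτ] at hE ⊢
  obtain ⟨e, m, hm, γ, hγ, e2⟩ := hl
  change l = l.map (im n) at e
  have him := map_self e.symm
  have hγl : ∀ J ∈ l, γ ∈ rsub G J := fun J hJ => by
    apply hγ
    change J ∈ l.map (im n)
    rw [← e]
    exact hJ
  change y = m • L.r (n • y) γ at e2
  have e3 : n • y = m⁻¹ • L.r y γ⁻¹ := by
    have : L.r y γ⁻¹ = m • (n • y) := by
      conv_lhs => rw [e2]
      rw [cm_r L (hM m hm), r_inv]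
    rw [this, inv_smul_smul]
  obtain ⟨m', hm', h1, γ3, hγ3, e4⟩ := hE
  refine ⟨m', hm', him I' hI', γ⁻¹, (rsub G I').inv_mem (hγl I' hI'), ?_⟩
  set u : N := (n * m' * n⁻¹) * m⁻¹ * m'⁻¹ with hu
  have huM : u ∈ M := M.mul_mem (M.mul_mem (hN.conj_mem m' hm' n) (M.inv_mem hm)) (M.inv_mem hm')
  have e5 : n • (m' • y) = u • L.r (m' • y) γ⁻¹ := by
    rw [cm_r L (hM m' hm'), hu, mul_smul, mul_smul, inv_smul_smul, ← e3, mul_smul, mul_smul,
      inv_smul_smul]
  have e6 : u • (m' • y) = L.r (m' • y) (γ3 * γ) := by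
    have h2 : L.r (u • (m' • y)) γ⁻¹ = L.r (m' • y) γ3 := by
      rw [cm_r L (hM u huM), ← e5, e4]
    rw [L.r_mul, ← h2, r_inv']
  have hu1 : u = 1 := free L hN0 hinj hinv hc (hMN huM) (h.1.2 I (List.mem_singleton.2 rfl)).1
    ((rsub G I).mul_mem hγ3 (hγl I hI)) e6
  rw [e5, hu1, one_smul]

end cubes

end act

theorem chain {Λ : Type} [Finite Λ] (l : List (Set Λ)) :
    ∀ x : Set Λ, (x :: l).Pairwise (· ⊂ ·) → x.ncard + l.length ≤ Nat.card Λ := by
  induction l with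
  | nil =>
    intro x _
    exact Set.ncard_le_card x
  | cons y l ih =>
    intro x hx
    rw [List.pairwise_cons] at hx
    have h1 := ih y hx.2
    have h2 := Set.ncard_lt_ncard (hx.1 y List.mem_cons_self) (Set.toFinite y)
    rw [List.length_cons]
    omega

section fin
variable {Λ : Type} {G : SimpleGraph Λ} {Y : Type} (L : LS G Y)
variable {N : Type} [Group N] [MulAction N Y] [MulAction N Λ]
variable {F : Type} [AddCommGroup F]

theorem to0_mk (hadj : ∀ (n : N) a b, G.Adj a b → G.Adj (n • a) (n • b))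
    (hτ : ∀ (n : N) a y, L.τ (n • a) (n • y) = n • L.τ a y) {p : ℕ} (n : N) (hn : n ^ p = 1)
    (Ms : ℕ → Subgroup N) (hM : ∀ j, ∀ m ∈ Ms j, Cm L m) (hnor : ∀ j, (Ms j).Normal)
    (hle : ∀ j, Ms (j + 1) ≤ Ms j) (j : ℕ) (x : FT L 0) :
    (tw L hadj hτ F n hn Ms hM hnor hle).to0 0 j (Quotient.mk (std L (Ms j) (hM j) 0) x) =
      Quotient.mk (std L (Ms 0) (hM 0) 0) x := by
  induction j with
  | zero => rfl
  | succ j ih => exact ih

/-- zero-cocycles are constant -/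
theorem const {M : Subgroup N} (hM : ∀ m ∈ M, Cm L m)
    (hconn : ∀ y y', ∃ γ, L.r y γ = y') (f : S L M hM 0 → F) (hf : dl L M hM 0 f = 0) :
    ∀ a b, f a = f b := by
  have h1 : ∀ (y : Y) (I J : Set Λ), Fl G (mvs L y) [I, J] → ext L f y [J] = ext L f y [I] := by
    intro y I J h
    have h2 := congrFun hf (Quotient.mk _ ⟨(y, [I, J]), h, rfl⟩)
    rw [dl_mk] at h2
    change del (ext L f y) [I, J] = 0 at h2
    rw [del_two, del_nil, add_zero] at h2
    exact sub_eq_zero.1 h2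
  have hemp : ∀ y : Y, ∀ I : Set Λ, G.IsClique I → I ⊆ mvs L y → ext L f y [I] = ext L f y [∅] := by
    intro y I hI hm
    by_cases he : I = ∅
    · rw [he]
    · refine h1 y ∅ I ⟨?_, ?_⟩
      · rw [List.pairwise_cons]
        refine ⟨fun J hJ => ?_, List.pairwise_singleton _ _⟩
        rw [List.mem_singleton.1 hJ]
        exact Set.empty_ssubset.2 (Set.nonempty_iff_ne_empty.2 he)
      · intro J hJ
        rcases List.mem_cons.1 hJ with h | h
        · rw [h]
          exact ⟨by simp [SimpleGraph.IsClique], Set.empty_subset _⟩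
        · rw [List.mem_singleton.1 h]
          exact ⟨hI, hm⟩
  have hstep : ∀ (s : Λ) (y : Y), ext L f (L.τ s y) [∅] = ext L f y [∅] := by
    intro s y
    by_cases h : L.τ s y = y
    · rw [h]
    · have hc : G.IsClique {s} := by simp [SimpleGraph.IsClique]
      have hm : ({s} : Set Λ) ⊆ mvs L y := Set.singleton_subset_iff.2 h
      have hm' : ({s} : Set Λ) ⊆ mvs L (L.τ s y) := by
        rw [Set.singleton_subset_iff]
        change L.τ s (L.τ s y) ≠ L.τ s y
        rw [L.inv]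
        exact fun h' => h h'.symm
      rw [← hemp _ _ hc hm, ← hemp _ _ hc hm']
      exact ext_tcoch L f y {s} [] (fl_one L hc hm).1 rfl s rfl
  have hr : ∀ (γ : RC G) (y : Y), ext L f (L.r y γ) [∅] = ext L f y [∅] := by
    intro γ y
    induction γ using rac_induction_right with
    | h1 => rw [L.r_one]
    | h2 a c ih => rw [L.r_mul, L.r_rg, hstep, ih]
  have hx : ∀ x : FT L 0, f (Quotient.mk _ x) = ext L f x.1.1 [∅] := by
    rintro ⟨⟨y, l⟩, hl, hk⟩
    obtain ⟨I, rfl⟩ := List.length_eq_one_iff.1 (by simpa using hk)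
    rw [← ext_pos L f ⟨hl, hk⟩]
    exact hemp y I (hl.2 I (List.mem_singleton.2 rfl)).1 (hl.2 I (List.mem_singleton.2 rfl)).2
  intro a b
  induction a using Quotient.ind with | _ a =>
  induction b using Quotient.ind with | _ b =>
  rw [hx, hx]
  obtain ⟨γ, hγ⟩ := hconn a.1.1 b.1.1
  rw [← hγ, hr]

end fin

end SMT

open SMT in
theorem smt_thm : Stmt_TRF → Stmt_SMITH → Stmt_SMT := by
  intro hT hSm Λ _ G Y L N _ _ _ p _ N0 c κ 𝓜 hadj hτ htriv hinj hinv hκ hc hconn hne hfam hsys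
    M0 hM0
  classical
  have hN0 : ∀ m ∈ N0, Cm L m := fun m hm a y => by
    have := hτ m a y
    rw [htriv m hm a] at this
    exact this
  let d := Nat.card Λ
  have step : ∀ M : {M : Subgroup N // M ∈ 𝓜}, ∃ M' : {M : Subgroup N // M ∈ 𝓜},
      ∃ hle : M'.1 ≤ M.1, ∀ k, k < d →
      ∀ f : S L M.1 (fun m hm => hN0 m ((hfam M.1 M.2).1 hm)) (k + 1) → ZMod p,
        dl L M.1 (fun m hm => hN0 m ((hfam M.1 M.2).1 hm)) (k + 1) f = 0 →
        ∃ g : S L M'.1 (fun m hm => hN0 m ((hfam M'.1 M'.2).1 hm)) k → ZMod p,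
          dl L M'.1 (fun m hm => hN0 m ((hfam M'.1 M'.2).1 hm)) k g =
            fun x => f (prj L _ _ hle (k + 1) x) := by
    rintro ⟨M, hM⟩
    obtain ⟨hMN, hMn, P, hP, hP2⟩ := hfam M hM
    have hv := fun (i : Σ k : Fin d, {f : S L M (fun m hm => hN0 m (hMN hm)) ((k : ℕ) + 1) → ZMod p //
      dl L M (fun m hm => hN0 m (hMN hm)) ((k : ℕ) + 1) f = 0}) =>
      van L hT N0 hN0 c κ hκ hc M hMN P hP hP2 (i.1 : ℕ) i.2.1 i.2.2
    choose MC hMC1 hMC2 hMC3 using hv
    have hfinI : Finite (Σ k : Fin d, {f : S L M (fun m hm => hN0 m (hMN hm)) ((k : ℕ) + 1) → ZMod p //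
        dl L M (fun m hm => hN0 m (hMN hm)) ((k : ℕ) + 1) f = 0}) := by
      have : ∀ k : Fin d, Finite (S L M (fun m hm => hN0 m (hMN hm)) ((k : ℕ) + 1)) :=
        fun k => finS L _ P hP hP2 _
      infer_instance
    obtain ⟨M', hM'1, hM'2, hM'3⟩ := hsys M hM (⨅ i, MC i) (Subgroup.normal_iInf_normal hMC1)
      (Subgroup.finiteIndex_iInf hMC2)
    refine ⟨⟨M', hM'1⟩, hM'2, fun k hk f hf => ?_⟩
    exact hMC3 ⟨⟨k, hk⟩, f, hf⟩ M' hM'2 (fun m hm => (Subgroup.mem_iInf.1 (hM'3 m hm)) _)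
  choose nxt hle hvan using step
  let sq : ℕ → {M : Subgroup N // M ∈ 𝓜} := fun j => Nat.rec ⟨M0, hM0⟩ (fun _ M => nxt M) j
  refine ⟨(sq d).1, (sq d).2, ?_⟩
  intro n m hm hnp hmnp hfix1 hfix2
  have hMs : ∀ j, ∀ m ∈ (sq j).1, Cm L m := fun j m hm => hN0 m ((hfam (sq j).1 (sq j).2).1 hm)
  have hnor : ∀ j, (sq j).1.Normal := fun j => (hfam (sq j).1 (sq j).2).2.1
  have hle' : ∀ j, (sq (j + 1)).1 ≤ (sq j).1 := fun j => hle (sq j)
  have hd0 : ∀ j, (sq j).1 ≤ M0 := by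
    intro j
    induction j with
    | zero => exact le_rfl
    | succ j ih => exact (hle' j).trans ih
  have hM0N : M0 ≤ N0 := (hfam M0 hM0).1
  have hM0n : M0.Normal := (hfam M0 hM0).2.1
  have hM0c : ∀ m ∈ M0, Cm L m := fun m hm => hN0 m (hM0N hm)
  let T : Tow p (ZMod p) := tw L hadj hτ (ZMod p) n hnp (fun j => (sq j).1) hMs hnor hle'
  -- the indicator of the fixed cubes
  let f : S L M0 (hM0c) 0 → ZMod p := fun q => if E L (hM0c) n q then 1 else 0
  have hEσ : ∀ q, E L (hM0c) n q → sgm L hadj hτ (hM0c) hM0n n 0 q = q := by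
    rintro q ⟨y, I, h, rfl, h1, γ, hγ, h2⟩
    rw [sgm_mk]
    apply Quotient.sound
    change rel L M0 (n • y, [im n I]) (y, [I])
    rw [h1]
    refine ⟨rfl, 1, M0.one_mem, γ⁻¹, ?_, ?_⟩
    · intro J hJ
      change J ∈ [I] at hJ
      rw [List.mem_singleton.1 hJ]
      exact (rsub G I).inv_mem hγ
    · rw [one_smul]
      change y = L.r (n • y) γ⁻¹
      rw [h2, r_inv]
  have hinjσ : Function.Injective (sgm L hadj hτ (hM0c) hM0n n 0) := by
    have h1 := sgm_pow L hadj hτ (hM0c) hM0n n 0 hnp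
    have hp : p ≠ 0 := (Fact.out : p.Prime).ne_zero
    intro a b hab
    obtain ⟨p', hp'⟩ := Nat.exists_eq_succ_of_ne_zero hp
    rw [← h1 a, ← h1 b, hp', Function.iterate_succ_apply, Function.iterate_succ_apply, hab]
  have hfσ : ∀ x, f (T.σ 0 0 x) = f x := by
    intro x
    change f (sgm L hadj hτ (hM0c) hM0n n 0 x) = f x
    by_cases hE : E L (hM0c) n x
    · rw [hEσ x hE]
    · have : ¬ E L (hM0c) n (sgm L hadj hτ (hM0c) hM0n n 0 x) := by
        intro h
        have h2 := hinjσ (hEσ _ h)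
        rw [h2] at h
        exact hE h
      simp only [f]
      rw [if_neg hE, if_neg this]
  have hedge : ∀ e : S L M0 hM0c 1, sgm L hadj hτ hM0c hM0n n 1 e = e →
      dl L M0 hM0c 0 f e = 0 := by
    intro e he
    induction e using Quotient.ind with | _ x =>
    obtain ⟨⟨y, l⟩, hl, hk⟩ := x
    rw [sgm_mk] at he
    have hrel : rel L M0 (n • y, l.map (im n)) (y, l) := Quotient.exact he
    obtain ⟨I, J, rfl⟩ := List.length_eq_two.1 (by simpa using hk)
    rw [dl_mk]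
    change del (ext L f y) [I, J] = 0
    rw [del_two, del_nil, add_zero, sub_eq_zero]
    have hl' : Fl G (mvs L y) [I, J] := hl
    have hI := fl_one L (hl'.2 I (by simp)).1 (hl'.2 I (by simp)).2
    have hJ := fl_one L (hl'.2 J (by simp)).1 (hl'.2 J (by simp)).2
    rw [ext_pos L f hI, ext_pos L f hJ]
    have hiff : E L (hM0c) n (Quotient.mk _ ⟨(y, [J]), hJ⟩) ↔
        E L (hM0c) n (Quotient.mk _ ⟨(y, [I]), hI⟩) :=
      ⟨edge L hadj hτ hN0 hinj hinv hc (hM0c) hM0N hM0n n y hrel (by simp) (by simp) hJ hI,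
        edge L hadj hτ hN0 hinj hinv hc (hM0c) hM0N hM0n n y hrel (by simp) (by simp) hI hJ⟩
    simp only [f]
    by_cases h : E L (hM0c) n (Quotient.mk _ ⟨(y, [I]), hI⟩)
    · rw [if_pos (hiff.2 h), if_pos h]
    · rw [if_neg (fun h' => h (hiff.1 h')), if_neg h]
  have hemp : IsEmpty (T.S 0 (d + 1)) := by
    refine ⟨fun q => ?_⟩
    change S L M0 (hM0c) (d + 1) at q
    induction q using Quotient.ind with | _ x =>
    obtain ⟨⟨y, l⟩, hl, hk⟩ := x
    change l.length = d + 1 + 1 at hk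
    cases l with
    | nil => simp at hk
    | cons I l =>
      have h1 := chain l I hl.1
      rw [List.length_cons] at hk
      change _ ≤ d at h1
      omega
  have main := hSm p T d (fun j k hj hk f hf => hvan (sq j) k (by omega) f hf) hemp
    (fun f hf => const L (hMs d) hconn f hf) f hfσ hedge
  obtain ⟨y, I, hcl, hmv, hIn, γ, hγ, h1⟩ := hfix1
  obtain ⟨y', I', hcl', hmv', hIn', γ', hγ', h1'⟩ := hfix2
  have hcl1 : G.IsClique I := fun a ha b hb hab => hcl a ha b hb hab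
  have hcl1' : G.IsClique I' := fun a ha b hb hab => hcl' a ha b hb hab
  have hfl := fl_one L hcl1 (fun a ha => hmv a ha : I ⊆ mvs L y)
  have hfl' := fl_one L hcl1' (fun a ha => hmv' a ha : I' ⊆ mvs L y')
  have himI : im n I = I := (im_eq_iff n I).2 hIn
  have hmN : m ∈ N0 := (hfam (sq d).1 (sq d).2).1 hm
  have himI' : im n I' = I' := by
    rw [im_eq_iff]
    intro a
    rw [hIn' a, mul_smul, htriv m hmN]
  have ha : sgm L hadj hτ (hMs d) (hnor d) n 0
      (Quotient.mk (std L (sq d).1 (hMs d) 0) ⟨(y, [I]), hfl⟩) =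
      Quotient.mk (std L (sq d).1 (hMs d) 0) ⟨(y, [I]), hfl⟩ := by
    rw [sgm_mk]
    apply Quotient.sound
    change rel L (sq d).1 (n • y, [im n I]) (y, [I])
    rw [himI]
    refine ⟨rfl, 1, (sq d).1.one_mem, γ⁻¹, ?_, ?_⟩
    · intro J hJ
      change J ∈ [I] at hJ
      rw [List.mem_singleton.1 hJ]
      exact (rsub G I).inv_mem hγ
    · rw [one_smul]
      change y = L.r (n • y) γ⁻¹
      rw [h1, r_inv]
  have hb : sgm L hadj hτ (hMs d) (hnor d) n 0
      (Quotient.mk (std L (sq d).1 (hMs d) 0) ⟨(y', [I']), hfl'⟩) =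
      Quotient.mk (std L (sq d).1 (hMs d) 0) ⟨(y', [I']), hfl'⟩ := by
    rw [sgm_mk]
    apply Quotient.sound
    change rel L (sq d).1 (n • y', [im n I']) (y', [I'])
    rw [himI']
    refine ⟨rfl, m, hm, γ'⁻¹, ?_, ?_⟩
    · intro J hJ
      change J ∈ [I'] at hJ
      rw [List.mem_singleton.1 hJ]
      exact (rsub G I').inv_mem hγ'
    · change y' = m • L.r (n • y') γ'⁻¹
      rw [← cm_r L (hN0 m hmN), ← mul_smul, h1', r_inv]
  have hfin := main (Quotient.mk (std L (sq d).1 (hMs d) 0) ⟨(y, [I]), hfl⟩)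
    (Quotient.mk (std L (sq d).1 (hMs d) 0) ⟨(y', [I']), hfl'⟩) ha hb
  have e1 := to0_mk (F := ZMod p) L hadj hτ n hnp (fun j => (sq j).1) hMs hnor hle' d
    ⟨(y, [I]), hfl⟩
  have e2 := to0_mk (F := ZMod p) L hadj hτ n hnp (fun j => (sq j).1) hMs hnor hle' d
    ⟨(y', [I']), hfl'⟩
  have hEa : E L (hM0c) n (Quotient.mk (std L M0 (hM0c) 0) ⟨(y, [I]), hfl⟩) :=
    ⟨y, I, hfl, rfl, himI, γ, hγ, h1⟩
  have hfa : f (Quotient.mk (std L M0 (hM0c) 0) ⟨(y, [I]), hfl⟩) = 1 := if_pos hEa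
  have hfb : f (Quotient.mk (std L M0 (hM0c) 0) ⟨(y', [I']), hfl'⟩) = 1 := by
    rw [← hfa]
    refine Eq.trans (congrArg f e2).symm (Eq.trans hfin.symm (congrArg f e1))
  have hEb : E L (hM0c) n (Quotient.mk (std L M0 (hM0c) 0) ⟨(y', [I']), hfl'⟩) := by
    by_contra h
    have h0 : f (Quotient.mk (std L M0 (hM0c) 0) ⟨(y', [I']), hfl'⟩) = 0 := if_neg h
    rw [h0] at hfb
    exact zero_ne_one hfb
  rw [E_iff L hadj hτ] at hEb
  obtain ⟨m0, hm0, _, γ2, hγ2, h2⟩ := hEb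
  refine ⟨m0, hm0, ?_⟩
  set z := m0 • y' with hz
  have h3 : (m0 * (m * n) * m0⁻¹) • z = L.r z γ' := by
    rw [hz, mul_smul, inv_smul_smul, mul_smul, h1', cm_r L (hM0c m0 hm0)]
  set u := m0 * (m * n) * m0⁻¹ * n⁻¹ with hu
  have huM : u ∈ M0 := by
    have : u = m0 * m * (n * m0⁻¹ * n⁻¹) := by
      rw [hu]
      group
    rw [this]
    exact M0.mul_mem (M0.mul_mem hm0 (hd0 d hm)) (hM0n.conj_mem _ (M0.inv_mem hm0) n)
  have h4 : u • L.r z γ2 = L.r z γ' := by
    rw [← h2, hu, mul_smul, inv_smul_smul, h3]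
  have h5 : u • z = L.r z (γ' * γ2⁻¹) := by
    rw [L.r_mul, ← h4, ← cm_r L (hM0c u huM), r_inv]
  have h6 : u = 1 := free L hN0 hinj hinv hc (hM0N huM) hcl1'
    ((rsub G I').mul_mem hγ' ((rsub G I').inv_mem hγ2)) h5
  rw [hu] at h6
  exact mul_inv_eq_one.1 h6

end Pool.CS
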