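import Pool.Agent.Work.MP_64ea0f_cs.InterfaceG4
import Pool.Agent.Work.MP_64ea0f_cs_helper53.SMT
import Pool.Agent.Work.MP_64ea0f_cs_helper5.TRF

set_option autoImplicit false
set_option linter.unusedSectionVars false
set_option linter.unusedVariables false

namespace Pool.CS

namespace SMT2

open SMT

section levels
variable {Λ : Type} {G : SimpleGraph Λ} {Y Y' : Type} (L : LS G Y) (L' : LS G Y')
variable {N : Type} [Group N] [MulAction N Y] [MulAction N Y'] [MulAction N Λ]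
variable (π : Y' → Y) (hπ : ∀ (n : N) y, π (n • y) = n • π y)
  (hmv : ∀ a y, L'.τ a y ≠ y → L.τ a (π y) = π (L'.τ a y) ∧ L.τ a (π y) ≠ π y)

include hmv in
theorem pi_r {I : Set Λ} (hI : G.IsClique I) {γ : RC G} (hγ : γ ∈ rsub G I) :
    ∀ y, I ⊆ mvs L' y → π (L'.r y γ) = L.r (π y) γ := by
  induction hγ using Subgroup.closure_induction with
  | mem x hx =>
    obtain ⟨s, hs, rfl⟩ := hx
    intro y hy
    rw [L'.r_rg, L.r_rg]
    exact (hmv s y (hy hs)).1.symm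
  | one =>
    intro y _
    rw [L'.r_one, L.r_one]
  | mul x x' hx _ h h' =>
    intro y hy
    rw [L'.r_mul, L.r_mul, h' _ (fun t ht => (mv_r L' hI hx y t ht).not.2 (hy ht)), h _ hy]
  | inv x hx h =>
    intro y hy
    have h1 : I ⊆ mvs L' (L'.r y x⁻¹) := fun t ht =>
      (mv_r L' hI ((rsub G I).inv_mem hx) y t ht).not.2 (hy ht)
    have h2 := h _ h1
    rw [r_inv'] at h2
    rw [h2, r_inv]

include hmv in
theorem fl_pi {y : Y'} {l : List (Set Λ)} (h : Fl G (mvs L' y) l) : Fl G (mvs L (π y)) l :=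
  ⟨h.1, fun I hI => ⟨(h.2 I hI).1, fun a ha => (hmv a y ((h.2 I hI).2 ha)).2⟩⟩

include hπ hmv in
theorem rel_pi {M M' : Subgroup N} (hle : M' ≤ M) {k : ℕ} {x x' : Y' × List (Set Λ)}
    (hx : Fl G (mvs L' x.1) x.2) (hk : x.2.length = k + 1) (h : rel L' M' x x') :
    rel L M (π x.1, x.2) (π x'.1, x'.2) := by
  obtain ⟨e, m, hm, γ, hγ, e2⟩ := h
  refine ⟨e, m, hle hm, γ, hγ, ?_⟩
  change π x'.1 = m • L.r (π x.1) γ
  obtain ⟨y, l⟩ := x
  cases l with
  | nil => simp at hk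
  | cons I l =>
    have h1 : γ ∈ rsub G I := hγ I List.mem_cons_self
    have h2 := hx.2 I List.mem_cons_self
    rw [e2, hπ, pi_r L L' π hmv h2.1 h1 _ h2.2]

/-- the projection between the levels -/
def pj {M M' : Subgroup N} (hM : ∀ m ∈ M, Cm L m) (hM' : ∀ m ∈ M', Cm L' m) (hle : M' ≤ M)
    (k : ℕ) : S L' M' hM' k → S L M hM k :=
  Quotient.map (fun x => ⟨(π x.1.1, x.1.2), fl_pi L L' π hmv x.2.1, x.2.2⟩)
    (fun x x' hx => rel_pi L L' π hπ hmv hle x.2.1 x.2.2 hx)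

theorem van2 (hP : Stmt_PROD) (hG : Stmt_GOOD) (hR : Stmt_TRR) [Finite Λ] {F : Type}
    [AddCommGroup F] [Finite F] {M : Subgroup N} (hM : ∀ m ∈ M, Cm L m) (P : Set Y)
    (hPf : P.Finite) (hP2 : ∀ y : Y, ∃ m ∈ M, m • y ∈ P) (k : ℕ)
    (f : S L M hM (k + 1) → F) (hf : dl L M hM (k + 1) f = 0) :
    ∃ MC : Subgroup (RC G), MC.Normal ∧ MC.FiniteIndex ∧
      ∀ (Y' : Type) [MulAction N Y'] (L' : LS G Y') (π : Y' → Y)
        (hπ : ∀ (n : N) y, π (n • y) = n • π y)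
        (hmv : ∀ a y, L'.τ a y ≠ y → L.τ a (π y) = π (L'.τ a y) ∧ L.τ a (π y) ≠ π y)
        (M' : Subgroup N) (hM' : ∀ m ∈ M', Cm L' m) (hle : M' ≤ M)
        (MC' : Subgroup (RC G)) (hMC' : MC'.Normal) (_ : MC' ≤ MC)
        (κ : Y' → RC G ⧸ MC'),
        (∀ a y, L'.τ a y ≠ y → κ (L'.τ a y) = κ y * QuotientGroup.mk' MC' (rg G a)) →
        (∀ m ∈ M', ∀ y, κ (m • y) = κ y) →
        ∃ g : S L' M' hM' k → F,
          dl L' M' hM' k g = fun x => f (pj L L' π hπ hmv hM hM' hle (k + 1) x) := by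
  have hfin : Finite (MulAction.orbitRel.Quotient M Y) := by
    have : Finite P := hPf
    refine Finite.of_surjective (fun y : P => (Quotient.mk _ y.1 :
      MulAction.orbitRel.Quotient M Y)) ?_
    intro q
    induction q using Quotient.ind with | _ y =>
    obtain ⟨m, hm, hmP⟩ := hP2 y
    exact ⟨⟨m • y, hmP⟩, Quotient.sound ⟨⟨m, hm⟩, rfl⟩⟩
  have heq : ∀ (m : M) s (y : Y), L.τ s (m • y) = m • L.τ s y := fun m s y => hM m.1 m.2 s y
  have hinv : ∀ (m : M) (y : Y) l, Fl G (mvs L y) l → l.length = k + 2 →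
      ext L f (m • y) l = ext L f y l := by
    intro m y l hl hk
    refine ext_rel L f (x := (y, l)) (x' := ((m : N) • y, l)) ?_
    exact ⟨rfl, m.1, m.2, 1, fun _ _ => Subgroup.one_mem _, by rw [L.r_one]⟩
  obtain ⟨hR1, hR2, hR3⟩ := hR Λ G F Y L k (ext L f) (mv L) (ext_tcoch L f) (by
    intro y l hl hk
    have := congrFun hf (Quotient.mk _ ⟨(y, l), hl, hk⟩)
    rw [dl_mk] at this
    exact this)
  have hout : ∀ (y : Y) (l : List (Set Λ)), l.length = k + 2 →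
      rst L (ext L f) (Quotient.out (TRF.mk M y)) l = rst L (ext L f) y l := by
    intro y l hl
    obtain ⟨m, hm⟩ := TRF.out_eq (M := M) y
    rw [← hm]
    exact TRF.rst_smul L heq (k + 2) (ext L f) hinv m y l hl
  have hφ1 : Coch (TRF.qls L heq) Set.univ (k + 1)
      (fun v : MulAction.orbitRel.Quotient M Y => rst L (ext L f) (Quotient.out v)) := by
    intro v x l hl hn s hs
    induction v using TRF.mk_ind with
    | h y =>
      change rst L (ext L f) (Quotient.out ((TRF.qls L heq).τ s (TRF.mk M y))) (x :: l) = _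
      rw [TRF.qls_mk, hout _ _ (by simp [hn])]
      change _ = rst L (ext L f) (Quotient.out (TRF.mk M y)) (x :: l)
      rw [hout _ _ (by simp [hn])]
      exact hR1 y x l hl hn s hs
  have hφ2 : Cocy G Set.univ (k + 1)
      (fun v : MulAction.orbitRel.Quotient M Y => rst L (ext L f) (Quotient.out v)) := by
    intro v l hl hn
    exact hR2 (Quotient.out v) l hl hn
  obtain ⟨V', hV', LV, πV, -, hsurj, hequi, ψ', hψ1, hψ2⟩ :=
    hG Λ G F Set.univ k (MulAction.orbitRel.Quotient M Y) (TRF.qls L heq)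
      (fun a ha => absurd (Set.mem_univ a) ha) _ hφ1 hφ2
  obtain ⟨Q, hQ, ⟨q₀⟩, K, ρ, -, hρ1, hρ2⟩ :=
    hP Λ G Set.univ (MulAction.orbitRel.Quotient M Y) V' (TRF.qls L heq) LV πV hsurj
      (fun a _ v => hequi a v)
  refine ⟨K.hom.ker, inferInstance, inferInstance, ?_⟩
  intro Y' _ L' π hπ hmv M' hM' hle MC' hMC' hMCle κ hκ hκm
  let lf : RC G ⧸ MC' →* Equiv.Perm Q := QuotientGroup.lift MC' K.hom hMCle
  let kk : RC G ⧸ MC' → Q := fun q => lf q⁻¹ q₀
  have hkk : ∀ q a, kk (q * QuotientGroup.mk' MC' (rg G a)) = K.τ a (kk q) := by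
    intro q a
    change lf (q * QuotientGroup.mk' MC' (rg G a))⁻¹ q₀ = K.τ a (lf q⁻¹ q₀)
    rw [mul_inv_rev, map_mul, ← map_inv]
    have : lf (QuotientGroup.mk' MC' (rg G a)⁻¹) = K.hom (rg G a)⁻¹ := rfl
    rw [this, ← LS.r_rg]
    rfl
  have hT : TCoch L' k (fun y => ψ' (ρ (TRF.mk M (π y), kk (κ y)))) := by
    intro y x l hl hn s hs
    have hsy : L'.τ s y ≠ y := (hl.2 x List.mem_cons_self).2 hs
    change ψ' (ρ (TRF.mk M (π (L'.τ s y)), kk (κ (L'.τ s y)))) (x :: l) = _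
    rw [hκ s y hsy, hkk, ← (hmv s y hsy).1]
    have h1 := hρ2 s (Set.mem_univ s) (TRF.mk M (π y), kk (κ y))
    change ρ (TRF.mk M (L.τ s (π y)), K.τ s (kk (κ y))) = _ at h1
    rw [h1]
    exact hψ1 _ x l (hl.mono (Set.subset_univ _)) hn s hs
  refine ⟨desc L' hM' hT (fun m hm y l hl hk => ?_), ?_⟩
  · rw [hκm m hm, hπ]
    have h1 : TRF.mk M (m • π y) = TRF.mk M (π y) := TRF.mk_smul (⟨m, hle hm⟩ : M) (π y)
    rw [h1]
  · funext x
    induction x using Quotient.ind with | _ x =>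
    rw [dl_mk]
    have h6 : f (pj L L' π hπ hmv hM hM' hle (k + 1) (Quotient.mk _ x)) =
        ext L f (π x.1.1) x.1.2 :=
      (ext_pos L f ⟨fl_pi L L' π hmv x.2.1, x.2.2⟩).symm
    rw [h6]
    have h7 := hψ2 (ρ (TRF.mk M (π x.1.1), kk (κ x.1.1))) x.1.2
      (x.2.1.mono (Set.subset_univ _)) x.2.2
    have h8 : rst L (ext L f) (Quotient.out (πV (ρ (TRF.mk M (π x.1.1), kk (κ x.1.1))))) x.1.2 =
        ext L f (π x.1.1) x.1.2 := by
      rw [hρ1]
      change rst L (ext L f) (Quotient.out (TRF.mk M (π x.1.1))) x.1.2 = _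
      rw [hout _ _ x.2.2, hR3 _ _ (fl_pi L L' π hmv x.2.1)]
    rw [← h8]
    refine Eq.trans ?_ h7.symm
    refine del_congr fun l' h9 h10 => ?_
    rw [ext_pos L' _ (fl_sub L' x h9 h10)]
    rfl

end levels

section free
variable {Λ : Type} {G : SimpleGraph Λ} {Y : Type} (L : LS G Y)
variable {N : Type} [Group N] [MulAction N Y] [MulAction N Λ]

theorem free2 {M : Subgroup N} (hM : ∀ m ∈ M, Cm L m)
    (hfr : ∀ m ∈ M, ∀ y : Y, m • y = y → m = 1) (hinv : ∀ m ∈ M, m ^ 2 = 1 → m = 1)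
    {m : N} (hm : m ∈ M) {y : Y} {I : Set Λ} (hI : G.IsClique I) {γ : RC G} (hγ : γ ∈ rsub G I)
    (h : m • y = L.r y γ) : m = 1 := by
  apply hinv m hm
  have h1 : (m * m) • y = y := by
    rw [mul_smul, h, ← cm_r L (hM m hm), h, ← L.r_mul, sq_one hI hγ, L.r_one]
  rw [pow_two]
  exact hfr _ (M.mul_mem hm hm) y h1

theorem edge2 (hadj : ∀ (n : N) a b, G.Adj a b → G.Adj (n • a) (n • b))
    (hτ : ∀ (n : N) a y, L.τ (n • a) (n • y) = n • L.τ a y)
    {M : Subgroup N} (hM : ∀ m ∈ M, Cm L m)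
    (hfr : ∀ m ∈ M, ∀ y : Y, m • y = y → m = 1) (hinv : ∀ m ∈ M, m ^ 2 = 1 → m = 1)
    (hN : M.Normal) (n : N) (y : Y)
    {l : List (Set Λ)} (hl : rel L M (n • y, l.map (im n)) (y, l)) {I I' : Set Λ} (hI : I ∈ l)
    (hI' : I' ∈ l) (h : Fl G (mvs L y) [I] ∧ [I].length = 0 + 1)
    (h' : Fl G (mvs L y) [I'] ∧ [I'].length = 0 + 1)
    (hE : E L hM n (Quotient.mk _ ⟨(y, [I]), h⟩)) :
    E L hM n (Quotient.mk _ ⟨(y, [I']), h'⟩) := by
  rw [E_iff L hadj hτ] at hE ⊢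
  obtain ⟨e, m, hm, γ, hγ, e2⟩ := hl
  change l = l.map (im n) at e
  have him := map_self e.symm
  have hγl : ∀ J ∈ l, γ ∈ rsub G J := fun J hJ => by
    apply hγ
    change J ∈ l.map (im n)
    rw [← e]
    exact hJ
  change y = m • L.r (n • y) γ at e2
  have e3 : n • y = m⁻¹ • L.r y γ⁻¹ := by
    have : L.r y γ⁻¹ = m • (n • y) := by
      conv_lhs => rw [e2]
      rw [cm_r L (hM m hm), r_inv]
    rw [this, inv_smul_smul]
  obtain ⟨m', hm', h1, γ3, hγ3, e4⟩ := hE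
  refine ⟨m', hm', him I' hI', γ⁻¹, (rsub G I').inv_mem (hγl I' hI'), ?_⟩
  set u : N := (n * m' * n⁻¹) * m⁻¹ * m'⁻¹ with hu
  have huM : u ∈ M := M.mul_mem (M.mul_mem (hN.conj_mem m' hm' n) (M.inv_mem hm)) (M.inv_mem hm')
  have e5 : n • (m' • y) = u • L.r (m' • y) γ⁻¹ := by
    rw [cm_r L (hM m' hm'), hu, mul_smul, mul_smul, inv_smul_smul, ← e3, mul_smul, mul_smul,
      inv_smul_smul]
  have e6 : u • (m' • y) = L.r (m' • y) (γ3 * γ) := by
    have h2 : L.r (u • (m' • y)) γ⁻¹ = L.r (m' • y) γ3 := by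
      rw [cm_r L (hM u huM), ← e5, e4]
    rw [L.r_mul, ← h2, r_inv']
  have hu1 : u = 1 := free2 L hM hfr hinv huM (h.1.2 I (List.mem_singleton.2 rfl)).1
    ((rsub G I).mul_mem hγ3 (hγl I hI)) e6
  rw [e5, hu1, one_smul]

end free

section tower2
variable {Λ : Type} {G : SimpleGraph Λ} {N : Type} [Group N] [MulAction N Λ]
  (hadj : ∀ (n : N) a b, G.Adj a b → G.Adj (n • a) (n • b))
  (Y : ℕ → Type) [∀ j, MulAction N (Y j)] (L : ∀ j, LS G (Y j))
  (hτ : ∀ j (n : N) a y, (L j).τ (n • a) (n • y) = n • (L j).τ a y)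
  (F : Type) [AddCommGroup F] {p : ℕ} (n : N) (hn : n ^ p = 1)
  (Ms : ℕ → Subgroup N) (hM : ∀ j, ∀ m ∈ Ms j, Cm (L j) m) (hnor : ∀ j, (Ms j).Normal)
  (hle : ∀ j, Ms (j + 1) ≤ Ms j) (π : ∀ j, Y (j + 1) → Y j)
  (hπ : ∀ j (n : N) y, π j (n • y) = n • π j y)
  (hmv : ∀ j a y, (L (j + 1)).τ a y ≠ y →
    (L j).τ a (π j y) = π j ((L (j + 1)).τ a y) ∧ (L j).τ a (π j y) ≠ π j y)

/-- the tower -/
noncomputable def tw2 : Tow p F where
  S j k := S (L j) (Ms j) (hM j) k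
  pr j k := pj (L j) (L (j + 1)) (π j) (hπ j) (hmv j) (hM j) (hM (j + 1)) (hle j) k
  σ j k := sgm (L j) hadj (hτ j) (hM j) (hnor j) n k
  δ j k := dl (L j) (Ms j) (hM j) k
  pow j k x := sgm_pow (L j) hadj (hτ j) (hM j) (hnor j) n k hn x
  prσ j k x := by
    induction x using Quotient.ind with | _ x =>
    change (Quotient.mk _ _ : S (L j) (Ms j) (hM j) k) = Quotient.mk _ _
    congr 1
    apply Subtype.ext
    change (π j (n • x.1.1), x.1.2.map (im n)) = (n • π j x.1.1, x.1.2.map (im n))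
    rw [hπ]
  δδ j k f := dl_dl (L j) f
  δσ j k f := by
    funext x
    induction x using Quotient.ind with | _ x =>
    rw [dl_mk, sgm_mk, dl_mk]
    change _ = del (ext (L j) f (n • x.1.1)) (x.1.2.map (im n))
    rw [← del_map]
    refine del_congr fun l' h1 h2 => ?_
    have h3 := fl_sub (L j) x h1 h2
    rw [ext_pos (L j) _ h3, ext_pos (L j) (l := l'.map (im n)) f
      ⟨fl_im (L j) hadj (hτ j) n h3.1, by rw [List.length_map]; exact h3.2⟩]
    rfl
  δpr j k f := by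
    funext x
    induction x using Quotient.ind with | _ x =>
    change del (ext (L (j + 1)) _ x.1.1) x.1.2 = del (ext (L j) f (π j x.1.1)) x.1.2
    refine del_congr fun l' h1 h2 => ?_
    have h3 := fl_sub (L (j + 1)) x h1 h2
    rw [ext_pos (L (j + 1)) _ h3,
      ext_pos (L j) f ⟨fl_pi (L j) (L (j + 1)) (π j) (hmv j) h3.1, h3.2⟩]
    rfl
  loc j k f hf x hx := by
    induction x using Quotient.ind with | _ x =>
    rw [dl_mk]
    rw [sgm_mk] at hx
    have h0 : rel (L j) (Ms j) (n • x.1.1, x.1.2.map (im n)) x.1 := Quotient.exact hx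
    have h1 : x.1.2 = x.1.2.map (im n) := h0.1
    refine del_eq_zero fun l' h2 h3 => ?_
    have h4 := fl_sub (L j) x h2 h3
    rw [ext_pos (L j) f h4]
    apply hf
    rw [sgm_mk]
    apply Quotient.sound
    have h5 : l'.map (im n) = l' := self_map fun I hI => map_self h1.symm I (h2.subset hI)
    have h6 := rel_sub (L j) h0 (l := l') (by
      change l'.Sublist (x.1.2.map (im n))
      rw [← h1]
      exact h2)
    change rel (L j) (Ms j) (n • x.1.1, l'.map (im n)) (x.1.1, l')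
    rw [h5]
    exact h6

/-- the class of a cube with one clique goes down the tower -/
theorem to0_2 (I : Set Λ) (n' : N) (j : ℕ) : ∀ (y : Y j) (h : Fl G (mvs (L j) y) [I] ∧ [I].length = 0 + 1),
    ∃ (z : Y 0) (h' : Fl G (mvs (L 0) z) [I] ∧ [I].length = 0 + 1),
      (tw2 hadj Y L hτ F n hn Ms hM hnor hle π hπ hmv).to0 0 j
        (Quotient.mk (std (L j) (Ms j) (hM j) 0) ⟨(y, [I]), h⟩) =
        (Quotient.mk (std (L 0) (Ms 0) (hM 0) 0) ⟨(z, [I]), h'⟩) ∧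
      ∀ γ ∈ rsub G I, n' • y = (L j).r y γ → n' • z = (L 0).r z γ := by
  induction j with
  | zero =>
    intro y h
    exact ⟨y, h, rfl, fun γ _ h1 => h1⟩
  | succ j ih =>
    intro y h
    obtain ⟨z, h', h1, h2⟩ := ih (π j y) ⟨fl_pi (L j) (L (j + 1)) (π j) (hmv j) h.1, h.2⟩
    refine ⟨z, h', h1, fun γ hγ h3 => h2 γ hγ ?_⟩
    have h4 := h.1.2 I (List.mem_singleton.2 rfl)
    rw [← hπ, h3, pi_r (L j) (L (j + 1)) (π j) (hmv j) h4.1 hγ _ h4.2]

end tower2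

end SMT2

open SMT SMT2 in
theorem smt2_thm : Stmt_PROD → Stmt_GOOD → Stmt_TRR → Stmt_SMITH → Stmt_SMT2 := by
  intro hP hG hR hSm Λ _ G N _ _ p _ ι Y _ L M hadj hτ hnor htriv hfr hinv hconn hne hfam hsys i0
  classical
  have hMc : ∀ i, ∀ m ∈ M i, Cm (L i) m := fun i m hm a y => by
    have := hτ i m a y
    rw [htriv i m hm a] at this
    exact this
  let d := Nat.card Λ
  have step : ∀ i : ι, ∃ (j : ι) (hle : M j ≤ M i) (π : Y j → Y i)
      (hπ : ∀ (n : N) y, π (n • y) = n • π y)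
      (hmv : ∀ a y, (L j).τ a y ≠ y →
        (L i).τ a (π y) = π ((L j).τ a y) ∧ (L i).τ a (π y) ≠ π y),
      ∀ k, k < d → ∀ f : S (L i) (M i) (hMc i) (k + 1) → ZMod p,
        dl (L i) (M i) (hMc i) (k + 1) f = 0 →
        ∃ g : S (L j) (M j) (hMc j) k → ZMod p,
          dl (L j) (M j) (hMc j) k g =
            fun x => f (pj (L i) (L j) π hπ hmv (hMc i) (hMc j) hle (k + 1) x) := by
    intro i
    obtain ⟨P, hPf, hP2⟩ := hfam i
    have hv := fun (q : Σ k : Fin d, {f : S (L i) (M i) (hMc i) ((k : ℕ) + 1) → ZMod p //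
      dl (L i) (M i) (hMc i) ((k : ℕ) + 1) f = 0}) =>
      van2 (L i) hP hG hR (hMc i) P hPf hP2 (q.1 : ℕ) q.2.1 q.2.2
    choose MC hMC1 hMC2 hMC3 using hv
    have hfinI : Finite (Σ k : Fin d, {f : S (L i) (M i) (hMc i) ((k : ℕ) + 1) → ZMod p //
        dl (L i) (M i) (hMc i) ((k : ℕ) + 1) f = 0}) := by
      have : ∀ k : Fin d, Finite (S (L i) (M i) (hMc i) ((k : ℕ) + 1)) :=
        fun k => finS (L i) _ P hPf hP2 _
      infer_instance
    have hn1 : (⨅ q, MC q).Normal := Subgroup.normal_iInf_normal hMC1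
    obtain ⟨j, hle, π, hπ, hmv, κ, hκ, hκm⟩ := hsys i (⨅ q, MC q) hn1
      (Subgroup.finiteIndex_iInf hMC2)
    refine ⟨j, hle, π, hπ, hmv, fun k hk f hf => ?_⟩
    exact hMC3 ⟨⟨k, hk⟩, f, hf⟩ (Y j) (L j) π hπ hmv (M j) (hMc j) hle (⨅ q, MC q) hn1
      (iInf_le _ _) κ hκ hκm
  choose nxt hle π hπ hmv hvan using step
  let sq : ℕ → ι := fun j => Nat.rec i0 (fun _ i => nxt i) j
  refine ⟨sq d, ?_⟩
  have hd0 : ∀ j, M (sq j) ≤ M i0 := by
    intro j
    induction j with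
    | zero => exact le_rfl
    | succ j ih => exact (hle (sq j)).trans ih
  refine ⟨hd0 d, ?_⟩
  intro n m hm hnp hmnp hfix1 hfix2
  have hM0c : ∀ m ∈ M i0, Cm (L i0) m := hMc i0
  have hM0n : (M i0).Normal := hnor i0
  let T : Tow p (ZMod p) := tw2 hadj (fun j => Y (sq j)) (fun j => L (sq j))
    (fun j => hτ (sq j)) (ZMod p) n hnp (fun j => M (sq j)) (fun j => hMc (sq j))
    (fun j => hnor (sq j)) (fun j => hle (sq j)) (fun j => π (sq j)) (fun j => hπ (sq j))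
    (fun j => hmv (sq j))
  -- the indicator of the fixed cubes
  let f : S (L i0) (M i0) (hM0c) 0 → ZMod p := fun q => if E (L i0) (hM0c) n q then 1 else 0
  have hEσ : ∀ q, E (L i0) (hM0c) n q → sgm (L i0) hadj (hτ i0) (hM0c) hM0n n 0 q = q := by
    rintro q ⟨y, I, h, rfl, h1, γ, hγ, h2⟩
    rw [sgm_mk]
    apply Quotient.sound
    change rel (L i0) (M i0) (n • y, [im n I]) (y, [I])
    rw [h1]
    refine ⟨rfl, 1, (M i0).one_mem, γ⁻¹, ?_, ?_⟩
    · intro J hJ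
      change J ∈ [I] at hJ
      rw [List.mem_singleton.1 hJ]
      exact (rsub G I).inv_mem hγ
    · rw [one_smul]
      change y = (L i0).r (n • y) γ⁻¹
      rw [h2, r_inv]
  have hinjσ : Function.Injective (sgm (L i0) hadj (hτ i0) (hM0c) hM0n n 0) := by
    have h1 := sgm_pow (L i0) hadj (hτ i0) (hM0c) hM0n n 0 hnp
    have hp : p ≠ 0 := (Fact.out : p.Prime).ne_zero
    intro a b hab
    obtain ⟨p', hp'⟩ := Nat.exists_eq_succ_of_ne_zero hp
    rw [← h1 a, ← h1 b, hp', Function.iterate_succ_apply, Function.iterate_succ_apply, hab]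
  have hfσ : ∀ x, f (sgm (L i0) hadj (hτ i0) (hM0c) hM0n n 0 x) = f x := by
    intro x
    by_cases hE : E (L i0) (hM0c) n x
    · rw [hEσ x hE]
    · have : ¬ E (L i0) (hM0c) n (sgm (L i0) hadj (hτ i0) (hM0c) hM0n n 0 x) := by
        intro h
        have h2 := hinjσ (hEσ _ h)
        rw [h2] at h
        exact hE h
      simp only [f]
      rw [if_neg hE, if_neg this]
  have hedge : ∀ e : S (L i0) (M i0) hM0c 1, sgm (L i0) hadj (hτ i0) hM0c hM0n n 1 e = e →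
      dl (L i0) (M i0) hM0c 0 f e = 0 := by
    intro e he
    induction e using Quotient.ind with | _ x =>
    obtain ⟨⟨y, l⟩, hl, hk⟩ := x
    rw [sgm_mk] at he
    have hrel : rel (L i0) (M i0) (n • y, l.map (im n)) (y, l) := Quotient.exact he
    obtain ⟨I, J, rfl⟩ := List.length_eq_two.1 (by simpa using hk)
    rw [dl_mk]
    change del (ext (L i0) f y) [I, J] = 0
    rw [del_two, del_nil, add_zero, sub_eq_zero]
    have hl' : Fl G (mvs (L i0) y) [I, J] := hl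
    have hI := fl_one (L i0) (hl'.2 I (by simp)).1 (hl'.2 I (by simp)).2
    have hJ := fl_one (L i0) (hl'.2 J (by simp)).1 (hl'.2 J (by simp)).2
    rw [ext_pos (L i0) f hI, ext_pos (L i0) f hJ]
    have hiff : E (L i0) (hM0c) n (Quotient.mk _ ⟨(y, [J]), hJ⟩) ↔
        E (L i0) (hM0c) n (Quotient.mk _ ⟨(y, [I]), hI⟩) :=
      ⟨edge2 (L i0) hadj (hτ i0) hM0c (hfr i0) (hinv i0) hM0n n y hrel (by simp) (by simp) hJ hI,
        edge2 (L i0) hadj (hτ i0) hM0c (hfr i0) (hinv i0) hM0n n y hrel (by simp) (by simp) hI hJ⟩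
    simp only [f]
    by_cases h : E (L i0) (hM0c) n (Quotient.mk _ ⟨(y, [I]), hI⟩)
    · rw [if_pos (hiff.2 h), if_pos h]
    · rw [if_neg (fun h' => h (hiff.1 h')), if_neg h]
  have hemp : IsEmpty (T.S 0 (d + 1)) := by
    refine ⟨fun q => ?_⟩
    change S (L i0) (M i0) (hM0c) (d + 1) at q
    induction q using Quotient.ind with | _ x =>
    obtain ⟨⟨y, l⟩, hl, hk⟩ := x
    change l.length = d + 1 + 1 at hk
    cases l with
    | nil => simp at hk
    | cons I l =>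
      have h1 := chain l I hl.1
      rw [List.length_cons] at hk
      change _ ≤ d at h1
      omega
  have main := hSm p T d (fun j k hj hk f hf => hvan (sq j) k (by omega) f hf) hemp
    (fun f hf => const (L (sq d)) (hMc (sq d)) (hconn (sq d)) f hf) f hfσ hedge
  obtain ⟨y, I, hcl, hmv1, hIn, γ, hγ, h1⟩ := hfix1
  obtain ⟨y', I', hcl', hmv', hIn', γ', hγ', h1'⟩ := hfix2
  have hcl1 : G.IsClique I := fun a ha b hb hab => hcl a ha b hb hab
  have hcl1' : G.IsClique I' := fun a ha b hb hab => hcl' a ha b hb hab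
  have hfl := fl_one (L (sq d)) hcl1 (fun a ha => hmv1 a ha : I ⊆ mvs (L (sq d)) y)
  have hfl' := fl_one (L (sq d)) hcl1' (fun a ha => hmv' a ha : I' ⊆ mvs (L (sq d)) y')
  have himI : im n I = I := (im_eq_iff n I).2 hIn
  have himI' : im n I' = I' := by
    rw [im_eq_iff]
    intro a
    rw [hIn' a, mul_smul, htriv (sq d) m hm]
  have ha : sgm (L (sq d)) hadj (hτ (sq d)) (hMc (sq d)) (hnor (sq d)) n 0
      (Quotient.mk (std (L (sq d)) (M (sq d)) (hMc (sq d)) 0) ⟨(y, [I]), hfl⟩) =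
      Quotient.mk (std (L (sq d)) (M (sq d)) (hMc (sq d)) 0) ⟨(y, [I]), hfl⟩ := by
    rw [sgm_mk]
    apply Quotient.sound
    change rel (L (sq d)) (M (sq d)) (n • y, [im n I]) (y, [I])
    rw [himI]
    refine ⟨rfl, 1, (M (sq d)).one_mem, γ⁻¹, ?_, ?_⟩
    · intro J hJ
      change J ∈ [I] at hJ
      rw [List.mem_singleton.1 hJ]
      exact (rsub G I).inv_mem hγ
    · rw [one_smul]
      change y = (L (sq d)).r (n • y) γ⁻¹
      rw [h1, r_inv]
  have hb : sgm (L (sq d)) hadj (hτ (sq d)) (hMc (sq d)) (hnor (sq d)) n 0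
      (Quotient.mk (std (L (sq d)) (M (sq d)) (hMc (sq d)) 0) ⟨(y', [I']), hfl'⟩) =
      Quotient.mk (std (L (sq d)) (M (sq d)) (hMc (sq d)) 0) ⟨(y', [I']), hfl'⟩ := by
    rw [sgm_mk]
    apply Quotient.sound
    change rel (L (sq d)) (M (sq d)) (n • y', [im n I']) (y', [I'])
    rw [himI']
    refine ⟨rfl, m, hm, γ'⁻¹, ?_, ?_⟩
    · intro J hJ
      change J ∈ [I'] at hJ
      rw [List.mem_singleton.1 hJ]
      exact (rsub G I').inv_mem hγ'
    · change y' = m • (L (sq d)).r (n • y') γ'⁻¹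
      rw [← cm_r (L (sq d)) (hMc (sq d) m hm), ← mul_smul, h1', r_inv]
  have hfin := main (Quotient.mk (std (L (sq d)) (M (sq d)) (hMc (sq d)) 0) ⟨(y, [I]), hfl⟩)
    (Quotient.mk (std (L (sq d)) (M (sq d)) (hMc (sq d)) 0) ⟨(y', [I']), hfl'⟩) ha hb
  obtain ⟨z1, hz1, e1, q1⟩ := to0_2 hadj (fun j => Y (sq j)) (fun j => L (sq j))
    (fun j => hτ (sq j)) (ZMod p) n hnp (fun j => M (sq j)) (fun j => hMc (sq j))
    (fun j => hnor (sq j)) (fun j => hle (sq j)) (fun j => π (sq j)) (fun j => hπ (sq j))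
    (fun j => hmv (sq j)) I n d y hfl
  obtain ⟨z2, hz2, e2, q2⟩ := to0_2 hadj (fun j => Y (sq j)) (fun j => L (sq j))
    (fun j => hτ (sq j)) (ZMod p) n hnp (fun j => M (sq j)) (fun j => hMc (sq j))
    (fun j => hnor (sq j)) (fun j => hle (sq j)) (fun j => π (sq j)) (fun j => hπ (sq j))
    (fun j => hmv (sq j)) I' (m * n) d y' hfl'
  have k1 := q1 γ hγ h1
  have k2 := q2 γ' hγ' h1'
  change n • z1 = (L i0).r z1 γ at k1
  change (m * n) • z2 = (L i0).r z2 γ' at k2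
  have hEa : E (L i0) (hM0c) n (Quotient.mk (std (L i0) (M i0) (hM0c) 0) ⟨(z1, [I]), hz1⟩) :=
    ⟨z1, I, hz1, rfl, himI, γ, hγ, k1⟩
  have hfa : f (Quotient.mk (std (L i0) (M i0) (hM0c) 0) ⟨(z1, [I]), hz1⟩) = 1 := if_pos hEa
  have hfb : f (Quotient.mk (std (L i0) (M i0) (hM0c) 0) ⟨(z2, [I']), hz2⟩) = 1 := by
    rw [← hfa]
    refine Eq.trans (congrArg f e2).symm (Eq.trans hfin.symm (congrArg f e1))
  have hEb : E (L i0) (hM0c) n (Quotient.mk (std (L i0) (M i0) (hM0c) 0) ⟨(z2, [I']), hz2⟩) := by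
    by_contra h
    have h0 : f (Quotient.mk (std (L i0) (M i0) (hM0c) 0) ⟨(z2, [I']), hz2⟩) = 0 := if_neg h
    rw [h0] at hfb
    exact zero_ne_one hfb
  rw [E_iff (L i0) hadj (hτ i0)] at hEb
  obtain ⟨m0, hm0, _, γ2, hγ2, h2⟩ := hEb
  refine ⟨m0, hm0, ?_⟩
  set z := m0 • z2 with hz
  have h3 : (m0 * (m * n) * m0⁻¹) • z = (L i0).r z γ' := by
    rw [hz, mul_smul, inv_smul_smul, mul_smul, k2, cm_r (L i0) (hM0c m0 hm0)]
  set u := m0 * (m * n) * m0⁻¹ * n⁻¹ with hu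
  have huM : u ∈ M i0 := by
    have : u = m0 * m * (n * m0⁻¹ * n⁻¹) := by
      rw [hu]
      group
    rw [this]
    exact (M i0).mul_mem ((M i0).mul_mem hm0 (hd0 d hm)) (hM0n.conj_mem _ ((M i0).inv_mem hm0) n)
  have h4 : u • (L i0).r z γ2 = (L i0).r z γ' := by
    rw [← h2, hu, mul_smul, inv_smul_smul, h3]
  have h5 : u • z = (L i0).r z (γ' * γ2⁻¹) := by
    rw [(L i0).r_mul, ← h4, ← cm_r (L i0) (hM0c u huM), r_inv]
  have h6 : u = 1 := free2 (L i0) hM0c (hfr i0) (hinv i0) huM hcl1'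
    ((rsub G I').mul_mem hγ' ((rsub G I').inv_mem hγ2)) h5
  rw [hu] at h6
  exact mul_inv_eq_one.1 h6

end Pool.CS
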