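import Pool.Agent.Work.MP_64ea0f_cs.InterfaceF

set_option autoImplicit false

namespace Pool.CS

namespace VAC

theorem pow_res {B : Type*} [AddCommGroup B] [Module.Finite ℤ B] (b : B) (hb : b ≠ 0) :
    ∃ k : ℕ, 0 < k ∧ ∀ c : B, k • c ≠ b := by
  by_contra hcon
  push Not at hcon
  have key : ∀ p : ℕ, p.Prime → ∃ s : ℤ, (p * s : ℤ) • b = b := by
    intro p hp
    have h1 : b ∈ (⨅ i : ℕ, (Ideal.span {(p : ℤ)}) ^ i • (⊤ : Submodule ℤ B)) := by
      rw [Submodule.mem_iInf]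
      intro i
      obtain ⟨c, hc⟩ := hcon (p ^ i) (pow_pos hp.pos i)
      rw [← hc, Ideal.span_singleton_pow, ← natCast_zsmul, Nat.cast_pow]
      exact Submodule.smul_mem_smul (Ideal.mem_span_singleton_self _) Submodule.mem_top
    rw [Ideal.mem_iInf_smul_pow_eq_bot_iff] at h1
    obtain ⟨⟨r, hr⟩, h2⟩ := h1
    obtain ⟨s, hs⟩ := Ideal.mem_span_singleton'.1 hr
    refine ⟨s, ?_⟩
    rw [mul_comm, hs]
    exact h2
  have h0 : addOrderOf b ≠ 0 := by
    obtain ⟨s, hs⟩ := key 2 Nat.prime_two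
    intro h
    have h3 : (2 * s - 1 : ℤ) • b = 0 := by
      rw [sub_smul, one_smul]
      push_cast at hs
      rw [hs, sub_self]
    have h4 := addOrderOf_dvd_iff_zsmul_eq_zero.2 h3
    rw [h] at h4
    have := zero_dvd_iff.1 h4
    omega
  have h1 : addOrderOf b ≠ 1 := by
    intro h
    exact hb (AddMonoid.addOrderOf_eq_one_iff.1 h)
  obtain ⟨p, hp, hpd⟩ := Nat.exists_prime_and_dvd h1
  obtain ⟨s, hs⟩ := key p hp
  have h3 : (p * s - 1 : ℤ) • b = 0 := by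
    rw [sub_smul, one_smul, hs, sub_self]
  have h4 := addOrderOf_dvd_iff_zsmul_eq_zero.2 h3
  have h5 : (p : ℤ) ∣ p * s - 1 := (Int.natCast_dvd_natCast.2 hpd).trans h4
  have h6 : (p : ℤ) ∣ 1 := by
    have := dvd_sub (dvd_mul_right (p : ℤ) s) h5
    simpa using this
  have h7 : p ∣ 1 := by exact_mod_cast h6
  exact hp.one_lt.ne' (Nat.dvd_one.1 h7)

theorem pow_res' {Q : Type*} [CommGroup Q] [Group.FG Q] (b : Q) (hb : b ≠ 1) :
    ∃ k : ℕ, 0 < k ∧ ∀ c : Q, c ^ k ≠ b := by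
  have h : AddGroup.FG (Additive Q) := inferInstance
  have h1 : Module.Finite ℤ (Additive Q) := Module.Finite.iff_addGroup_fg.mpr h
  obtain ⟨k, hk, h2⟩ := pow_res (Additive.ofMul b) (fun h3 => hb h3)
  exact ⟨k, hk, fun c hc => h2 (Additive.ofMul c) (by rw [← hc]; rfl)⟩

/-- the quotient by the `k`-th powers is finite -/
theorem fin_pow {Q : Type} [CommGroup Q] [Group.FG Q] (k : ℕ) (hk : 0 < k) :
    (powMonoidHom k : Q →* Q).range.FiniteIndex := by
  have h1 : Finite (Q ⧸ (powMonoidHom k : Q →* Q).range) := by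
    have : Group.FG (Q ⧸ (powMonoidHom k : Q →* Q).range) := inferInstance
    refine CommGroup.finite_of_fg_isMulTorsion _ ?_
    intro x
    obtain ⟨a, rfl⟩ := QuotientGroup.mk_surjective x
    rw [isOfFinOrder_iff_pow_eq_one]
    refine ⟨k, hk, ?_⟩
    rw [← QuotientGroup.mk_pow, QuotientGroup.eq_one_iff]
    exact ⟨a, rfl⟩
  exact Subgroup.finiteIndex_of_finite_quotient

theorem main {Γ : Type} [Group Γ] (A : Subgroup Γ) (hn : A.Normal) (hfi : A.FiniteIndex)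
    (hfg : Group.FG A) (hc : ∀ x ∈ A, ∀ y ∈ A, x * y = y * x) : CSep Γ := by
  intro x y hP
  by_contra hcon
  let _ : CommGroup A := { (inferInstance : Group A) with
    mul_comm := fun a b => Subtype.ext (hc a.1 a.2 b.1 b.2) }
  -- the maps a ↦ a * (z * a⁻¹ * z⁻¹)
  let φ : Γ → (A →* A) := fun z =>
    { toFun := fun a => a * ⟨z * (a⁻¹ : A) * z⁻¹, hn.conj_mem _ (a⁻¹).2 z⟩
      map_one' := by
        apply Subtype.ext
        simp
      map_mul' := by
        intro a b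
        apply Subtype.ext
        have h1 : (z * (b:Γ)⁻¹ * z⁻¹) * (z * (a:Γ)⁻¹ * z⁻¹) =
          (z * (a:Γ)⁻¹ * z⁻¹) * (z * (b:Γ)⁻¹ * z⁻¹) :=
          hc _ (hn.conj_mem _ (A.inv_mem b.2) z) _ (hn.conj_mem _ (A.inv_mem a.2) z)
        have h2 : (b : Γ) * (z * (a:Γ)⁻¹ * z⁻¹) = (z * (a:Γ)⁻¹ * z⁻¹) * b :=
          hc _ b.2 _ (hn.conj_mem _ (A.inv_mem a.2) z)
        simp only [Subgroup.coe_mul, Subgroup.coe_inv, mul_inv_rev]
        calc (a : Γ) * b * (z * ((b:Γ)⁻¹ * (a:Γ)⁻¹) * z⁻¹)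
            = a * b * ((z * (b:Γ)⁻¹ * z⁻¹) * (z * (a:Γ)⁻¹ * z⁻¹)) := by group
          _ = a * (b * (z * (a:Γ)⁻¹ * z⁻¹)) * (z * (b:Γ)⁻¹ * z⁻¹) := by rw [h1]; group
          _ = a * (z * (a:Γ)⁻¹ * z⁻¹) * (b * (z * (b:Γ)⁻¹ * z⁻¹)) := by rw [h2]; group }
  have hφ : ∀ z (a : A), ((φ z a : A) : Γ) = a * (z * (a:Γ)⁻¹ * z⁻¹) := fun z a => rfl
  have step : ∀ t : Γ, ∃ k : ℕ, 0 < k ∧ ∀ a ∈ A, ∀ b ∈ A,
      x * (t * y * t⁻¹)⁻¹ ≠ b ^ k * (a * ((t * y * t⁻¹) * a⁻¹ * (t * y * t⁻¹)⁻¹)) := by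
    intro t
    set z := t * y * t⁻¹ with hz
    by_cases he : x * z⁻¹ ∈ A
    · have hne : (⟨x * z⁻¹, he⟩ : A) ∉ (φ z).range := by
        rintro ⟨a, ha⟩
        have h1 : (a : Γ) * (z * (a:Γ)⁻¹ * z⁻¹) = x * z⁻¹ := congrArg Subtype.val ha
        have h2 : x = (a : Γ) * z * (a:Γ)⁻¹ := by
          calc x = x * z⁻¹ * z := by group
            _ = (a : Γ) * (z * (a:Γ)⁻¹ * z⁻¹) * z := by rw [h1]
            _ = _ := by group
        apply hcon
        rw [isConj_comm, isConj_iff]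
        refine ⟨a * t, ?_⟩
        rw [h2, hz]
        group
      have hne' : (QuotientGroup.mk (⟨x * z⁻¹, he⟩ : A) : A ⧸ (φ z).range) ≠ 1 := by
        rw [ne_eq, QuotientGroup.eq_one_iff]
        exact hne
      obtain ⟨k, hk, hk2⟩ := pow_res' _ hne'
      refine ⟨k, hk, fun a ha b hb h => ?_⟩
      apply hk2 (QuotientGroup.mk (⟨b, hb⟩ : A))
      rw [← QuotientGroup.mk_pow, QuotientGroup.eq]
      refine ⟨⟨a, ha⟩, ?_⟩
      apply Subtype.ext
      rw [hφ]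
      simp only [Subgroup.coe_mul, Subgroup.coe_inv, Subgroup.coe_pow]
      rw [h]
      group
    · refine ⟨1, one_pos, fun a ha b hb h => he ?_⟩
      rw [h]
      exact A.mul_mem (A.pow_mem hb 1)
        (A.mul_mem ha (hn.conj_mem _ (A.inv_mem ha) z))
  choose K hK0 hK using step
  have hfin : Finite (Γ ⧸ A) := Subgroup.finite_quotient_of_finiteIndex
  have : Fintype (Γ ⧸ A) := Fintype.ofFinite _
  let k : ℕ := ∏ q : Γ ⧸ A, K q.out
  have hk : 0 < k := Finset.prod_pos fun q _ => hK0 _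
  -- the subgroup of k-th powers
  let N : Subgroup Γ := ((powMonoidHom k : A →* A).range).map A.subtype
  have hNA : N ≤ A := by
    rintro _ ⟨a, _, rfl⟩
    exact a.2
  have hmem : ∀ g, g ∈ N ↔ ∃ b ∈ A, b ^ k = g := by
    intro g
    constructor
    · rintro ⟨_, ⟨b, rfl⟩, rfl⟩
      exact ⟨b, b.2, rfl⟩
    · rintro ⟨b, hb, rfl⟩
      exact ⟨_, ⟨⟨b, hb⟩, rfl⟩, rfl⟩
  have hNn : N.Normal := by
    refine ⟨fun g hg c => ?_⟩
    obtain ⟨b, hb, rfl⟩ := (hmem g).1 hg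
    exact (hmem _).2 ⟨c * b * c⁻¹, hn.conj_mem _ hb c, conj_pow⟩
  have hNf : N.FiniteIndex := by
    have h1 : (N.subgroupOf A) = (powMonoidHom k : A →* A).range :=
      Subgroup.comap_map_eq_self_of_injective A.subtype_injective _
    have h2 : N.relIndex A ≠ 0 := by
      rw [Subgroup.relIndex, h1]
      exact (fin_pow k hk).index_ne_zero
    refine ⟨?_⟩
    rw [← Subgroup.relIndex_mul_index hNA]
    exact mul_ne_zero h2 hfi.index_ne_zero
  obtain ⟨c, hcN⟩ := hP N hNn hNf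
  -- write c = t * a'
  set q : Γ ⧸ A := QuotientGroup.mk c with hq
  set t := q.out with ht
  have hct : t⁻¹ * c ∈ A := by
    have : (QuotientGroup.mk t : Γ ⧸ A) = QuotientGroup.mk c := by
      rw [ht, QuotientGroup.out_eq']
    exact QuotientGroup.eq.1 this
  obtain ⟨b, hb, hbk⟩ := (hmem _).1 (N.inv_mem hcN)
  have ha : c * t⁻¹ ∈ A := by
    have := hn.conj_mem _ hct t
    have h2 : t * (t⁻¹ * c) * t⁻¹ = c * t⁻¹ := by group
    rwa [h2] at this
  have hdvd : K t ∣ k := Finset.dvd_prod_of_mem (fun q : Γ ⧸ A => K q.out) (Finset.mem_univ q)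
  obtain ⟨m, hm⟩ := hdvd
  apply hK t (c * t⁻¹) ha (b ^ m) (A.pow_mem hb m)
  rw [← pow_mul, mul_comm m, ← hm, hbk]
  group

end VAC

open VAC in
theorem vac_thm : Stmt_VAC := by
  intro Γ _ A hfi hfg hc
  have hA : Group.FG A := (Group.fg_iff_subgroup_fg A).2 hfg
  have h1 : A.normalCore.FiniteIndex := inferInstance
  have h2 : (A.normalCore.subgroupOf A).FiniteIndex := inferInstance
  have h3 : Group.FG (A.normalCore.subgroupOf A) := inferInstance
  have h4 : Group.FG A.normalCore :=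
    (Subgroup.subgroupOfEquivOfLe A.normalCore_le).surjective |> fun hs =>
      Group.fg_of_surjective (f := (Subgroup.subgroupOfEquivOfLe A.normalCore_le).toMonoidHom) hs
  exact main A.normalCore inferInstance h1 h4 (fun x hx y hy =>
    hc x (A.normalCore_le hx) y (A.normalCore_le hy))

end Pool.CS
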